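import Pool.Agent.Lib_MP_01c500_t.Defs

/-!
# Pivots
-/

set_option autoImplicit false

open Finset Classical

namespace MP01T

universe u v

theorem Piv.mono {V : Type u} {q : ℕ} {col : Sym2 V → Fin q} {c : Fin q} {t : ℕ} {B B' : Finset V}
    (h : Piv col c t B) (hB : B' ⊆ B) : Piv col c t B' := by
  obtain ⟨T, h1, h2, h3, h4⟩ := h
  exact ⟨T, h1, h2.mono_right hB, h3, fun x hx y hy => h4 x hx y (hB hy)⟩

/-- one more pivot -/
theorem Piv.succ {V : Type u} {q : ℕ} {col : Sym2 V → Fin q} {c : Fin q} {t : ℕ} {B B' : Finset V}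
    (h : Piv col c t B) {x : V} (hx : x ∈ B) (hB : B' ⊆ B) (hxB : x ∉ B')
    (hc : ∀ y ∈ B', col s(x, y) = c) : Piv col c (t + 1) B' := by
  obtain ⟨T, h1, h2, h3, h4⟩ := h
  have hxT : x ∉ T := fun h => (Finset.disjoint_left.mp h2 h) hx
  refine ⟨insert x T, by rw [card_insert_of_notMem hxT, h1], ?_, ?_, ?_⟩
  · rw [Finset.disjoint_insert_left]
    exact ⟨hxB, h2.mono_right hB⟩
  · intro a ha b hb hab
    rw [mem_insert] at ha hb
    rcases ha with rfl | ha
    · rcases hb with rfl | hb
      · exact absurd rfl hab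
      · rw [Sym2.eq_swap]
        exact h4 b hb _ hx
    · rcases hb with rfl | hb
      · exact h4 a ha _ hx
      · exact h3 a ha b hb hab
  · intro a ha y hy
    rw [mem_insert] at ha
    rcases ha with rfl | ha
    · exact hc y hy
    · exact h4 a ha y (hB hy)

/-- a copy of `H - A` over enough pivots gives a copy of `H` -/
theorem copy_of_piv {V : Type u} {W : Type v} [Fintype W] (H : SimpleGraph W) (A : Finset W) {q : ℕ}
    {col : Sym2 V → Fin q} {c : Fin q} {B : Finset V} (hp : Piv col c A.card B)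
    (hc : Copy (cl col c) (H.induce {v | v ∉ A}) B) :
    ∃ f : W → V, Function.Injective f ∧ ∀ v w, H.Adj v w → col s(f v, f w) = c := by
  obtain ⟨T, h1, h2, h3, h4⟩ := hp
  obtain ⟨g, hg1, hg2, hg3⟩ := hc
  have e : A ≃ T := Finset.equivOfCardEq h1.symm
  set f : W → V := fun v => if h : v ∈ A then (e ⟨v, h⟩ : V) else g ⟨v, h⟩ with hf
  have fA : ∀ v (h : v ∈ A), f v = (e ⟨v, h⟩ : V) := fun v h => by
    simp only [hf, dif_pos h]
  have fB : ∀ v (h : v ∉ A), f v = g ⟨v, h⟩ := fun v h => by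
    simp only [hf, dif_neg h]
  have fAT : ∀ v, v ∈ A → f v ∈ T := fun v h => by
    rw [fA v h]
    exact (e ⟨v, h⟩).2
  have fBB : ∀ v, v ∉ A → f v ∈ B := fun v h => by
    rw [fB v h]
    exact hg2 _
  have finj : Function.Injective f := by
    intro v w hvw
    by_cases hv : v ∈ A
    · by_cases hw : w ∈ A
      · rw [fA v hv, fA w hw] at hvw
        have := e.injective (Subtype.ext hvw)
        exact congrArg Subtype.val this
      · exfalso
        exact Finset.disjoint_left.mp h2 (fAT v hv) (hvw ▸ fBB w hw)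
    · by_cases hw : w ∈ A
      · exfalso
        exact Finset.disjoint_left.mp h2 (fAT w hw) (hvw ▸ fBB v hv)
      · rw [fB v hv, fB w hw] at hvw
        have := hg1 hvw
        exact congrArg Subtype.val this
  refine ⟨f, finj, ?_⟩
  intro v w hvw
  by_cases hv : v ∈ A
  · by_cases hw : w ∈ A
    · exact h3 _ (fAT v hv) _ (fAT w hw) (finj.ne hvw.ne)
    · exact h4 _ (fAT v hv) _ (fBB w hw)
  · by_cases hw : w ∈ A
    · rw [Sym2.eq_swap]
      exact h4 _ (fAT w hw) _ (fBB v hv)
    · have := hg3 ⟨v, hv⟩ ⟨w, hw⟩ hvw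
      rw [fB v hv, fB w hw]
      exact this

theorem chase_aux {V : Type u} {q : ℕ} (col : Sym2 V → Fin q) (U : Finset (Fin q)) {t Θ : ℕ}
    (hΘ : 1 ≤ Θ) (n : ℕ) : ∀ (a : Fin q → ℕ) (B : Finset V), (∀ c ∈ U, Piv col c (a c) B) →
      (∀ c ∈ U, a c ≤ t) → ∑ c ∈ U, (t - a c) ≤ n →
    (∃ c ∈ U, ∃ B' ⊆ B, B.card ≤ Θ ^ n * B'.card ∧ Piv col c t B') ∨
    ∃ B' ⊆ B, B.card ≤ Θ ^ n * B'.card ∧ ∀ x ∈ B', ∀ c ∈ U,
      Θ * (B'.filter fun y => y ≠ x ∧ col s(x, y) = c).card ≤ B'.card := by
  induction n with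
  | zero =>
    intro a B hp ha hs
    rcases U.eq_empty_or_nonempty with rfl | ⟨c, hc⟩
    · right
      exact ⟨B, Subset.rfl, by simp, fun x _ c hc => absurd hc (notMem_empty c)⟩
    · left
      have h0 : t - a c = 0 := by
        have h9 : t - a c ≤ ∑ c ∈ U, (t - a c) :=
          Finset.single_le_sum (f := fun c => t - a c) (fun _ _ => Nat.zero_le _) hc
        omega
      have h1 : a c = t := by
        have := ha c hc
        omega
      exact ⟨c, hc, B, Subset.rfl, by simp, h1 ▸ hp c hc⟩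
  | succ n ih =>
    intro a B hp ha hs
    by_cases h1 : ∃ c ∈ U, a c = t
    · obtain ⟨c, hc, hct⟩ := h1
      left
      exact ⟨c, hc, B, Subset.rfl, Nat.le_mul_of_pos_left _ (Nat.pow_pos hΘ), hct ▸ hp c hc⟩
    · by_cases h2 : ∀ x ∈ B, ∀ c ∈ U,
        Θ * (B.filter fun y => y ≠ x ∧ col s(x, y) = c).card ≤ B.card
      · right
        exact ⟨B, Subset.rfl, Nat.le_mul_of_pos_left _ (Nat.pow_pos hΘ), h2⟩
      · push Not at h1 h2
        obtain ⟨x, hx, c, hc, hlt⟩ := h2
        set N := B.filter fun y => y ≠ x ∧ col s(x, y) = c with hN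
        have hNB : N ⊆ B := filter_subset _ _
        have hcard : B.card ≤ Θ * N.card := hlt.le
        have hlt' : ∀ c ∈ U, a c < t := fun c hc => lt_of_le_of_ne (ha c hc) (h1 c hc)
        have key := ih (Function.update a c (a c + 1)) N ?_ ?_ ?_
        · rcases key with ⟨c', hc', B', hB', h3, h4⟩ | ⟨B', hB', h3, h4⟩
          · left
            refine ⟨c', hc', B', hB'.trans hNB, ?_, h4⟩
            calc B.card ≤ Θ * N.card := hcard
              _ ≤ Θ * (Θ ^ n * B'.card) := Nat.mul_le_mul_left _ h3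
              _ = Θ ^ (n + 1) * B'.card := by ring
          · right
            refine ⟨B', hB'.trans hNB, ?_, h4⟩
            calc B.card ≤ Θ * N.card := hcard
              _ ≤ Θ * (Θ ^ n * B'.card) := Nat.mul_le_mul_left _ h3
              _ = Θ ^ (n + 1) * B'.card := by ring
        · intro c' hc'
          by_cases hcc : c' = c
          · subst hcc
            rw [Function.update_self]
            refine (hp c' hc').succ hx hNB ?_ ?_
            · intro h
              exact (mem_filter.mp h).2.1 rfl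
            · intro y hy
              exact (mem_filter.mp hy).2.2
          · rw [Function.update_of_ne hcc]
            exact (hp c' hc').mono hNB
        · intro c' hc'
          by_cases hcc : c' = c
          · subst hcc
            rw [Function.update_self]
            exact hlt' c' hc'
          · rw [Function.update_of_ne hcc]
            exact ha c' hc'
        · have e1 : ∑ c' ∈ U, (t - a c') = (t - a c) + ∑ c' ∈ U.erase c, (t - a c') :=
            (Finset.add_sum_erase U (fun c' => t - a c') hc).symm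
          have e2 : ∑ c' ∈ U, (t - Function.update a c (a c + 1) c') =
              (t - Function.update a c (a c + 1) c) +
                ∑ c' ∈ U.erase c, (t - Function.update a c (a c + 1) c') :=
            (Finset.add_sum_erase U (fun c' => t - Function.update a c (a c + 1) c') hc).symm
          have e3 : ∑ c' ∈ U.erase c, (t - Function.update a c (a c + 1) c') =
              ∑ c' ∈ U.erase c, (t - a c') :=
            Finset.sum_congr rfl fun c' hc' => by
              rw [Function.update_of_ne (ne_of_mem_erase hc')]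
          rw [e2, e3, Function.update_self]
          have := hlt' c hc
          omega

/-- PROOF. Generalise: for `a : Fin q → ℕ` with `Piv col c (a c) B` and `a c ≤ t` for `c ∈ U`, with
`Θ ^ (∑ c ∈ U, (t - a c))` in place of `Θ ^ (q * t)`; induction on the sum. If some `a c = t`, `c ∈ U`: first
alternative with `B' = B`. Otherwise, if the second alternative fails for `B' = B`, there are `x ∈ B`,
`c ∈ U` with `#B < Θ * #N`, `N = {y ∈ B | y ≠ x, col s(x, y) = c}`: use `N` and `a c + 1` (`Piv.succ`).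
`∑ c ∈ U, t ≤ q * t`. -/
theorem chase {V : Type u} {q : ℕ} (col : Sym2 V → Fin q) (U : Finset (Fin q)) {t Θ : ℕ}
    (hΘ : 1 ≤ Θ) (B : Finset V) :
    (∃ c ∈ U, ∃ B' ⊆ B, B.card ≤ Θ ^ (q * t) * B'.card ∧ Piv col c t B') ∨
    ∃ B' ⊆ B, B.card ≤ Θ ^ (q * t) * B'.card ∧ ∀ x ∈ B', ∀ c ∈ U,
      Θ * (B'.filter fun y => y ≠ x ∧ col s(x, y) = c).card ≤ B'.card := by
  refine chase_aux col U hΘ (q * t) (fun _ => 0) B ?_ (fun _ _ => Nat.zero_le _) ?_
  · intro c _
    refine ⟨∅, card_empty, disjoint_empty_left _, ?_, ?_⟩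
    · intro x hx
      exact absurd hx (notMem_empty x)
    · intro x hx
      exact absurd hx (notMem_empty x)
  · simp only [Nat.sub_zero, sum_const, smul_eq_mul]
    refine Nat.mul_le_mul_right _ ?_
    have := card_le_univ U
    rwa [Fintype.card_fin] at this

/-- PROOF. For `A' ⊆ B`, `S ≤ #A'`, apply `chase` to `A'`. First alternative excluded by `hno`. Let `X`, `Y` be
disjoint subsets of `B'` of size `#B' / 2` (`#B' ≥ 2`, from `2 * Θ ^ (q * t) ≤ S`). `ec (junk col U) X Y` is at
most the sum over `x ∈ X`, `c ∈ U` of the degrees, so `Θ * ec ≤ #X * q * #B' ≤ 3 q #X #Y`, and `3 q P ≤ Θ`. -/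
theorem sp_of_chase {V : Type u} {q : ℕ} (col : Sym2 V → Fin q) (U : Finset (Fin q)) {t Θ P S : ℕ}
    (hΘ : 1 ≤ Θ) (hP : 3 * q * P ≤ Θ) (B : Finset V) (hS : 2 * Θ ^ (q * t) ≤ S)
    (hno : ∀ A' ⊆ B, S ≤ A'.card → ¬ ∃ c ∈ U, ∃ B' ⊆ A', A'.card ≤ Θ ^ (q * t) * B'.card ∧
      Piv col c t B') : Sp (junk col U) B S (4 * Θ ^ (q * t)) P := by
  intro A' hA' hSA
  rcases chase (t := t) col U hΘ A' with h | ⟨B', hB', hcard, hdeg⟩
  · exact absurd h (hno A' hA' hSA)
  have hpos : 0 < Θ ^ (q * t) := Nat.pow_pos hΘ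
  have h2 : 2 ≤ B'.card := by
    have : Θ ^ (q * t) * 2 ≤ Θ ^ (q * t) * B'.card := by
      calc Θ ^ (q * t) * 2 = 2 * Θ ^ (q * t) := by ring
        _ ≤ S := hS
        _ ≤ A'.card := hSA
        _ ≤ _ := hcard
    exact Nat.le_of_mul_le_mul_left this hpos
  obtain ⟨X, hX, hXc⟩ := Finset.exists_subset_card_eq (s := B') (n := B'.card / 2)
    (Nat.div_le_self _ _)
  have hsd : B'.card / 2 ≤ (B' \ X).card := by
    rw [card_sdiff_of_subset hX, hXc]
    omega
  obtain ⟨Y, hY, hYc⟩ := Finset.exists_subset_card_eq (s := B' \ X) (n := B'.card / 2) hsd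
  have hYB : Y ⊆ B' := hY.trans sdiff_subset
  have hXY : Disjoint X Y := by
    rw [Finset.disjoint_left]
    intro x hx hy
    exact (mem_sdiff.mp (hY hy)).2 hx
  have h4 : B'.card ≤ 4 * (B'.card / 2) := by omega
  have h3 : B'.card ≤ 3 * (B'.card / 2) := by omega
  have hA4 : A'.card ≤ 4 * Θ ^ (q * t) * (B'.card / 2) := by
    calc A'.card ≤ Θ ^ (q * t) * B'.card := hcard
      _ ≤ Θ ^ (q * t) * (4 * (B'.card / 2)) := Nat.mul_le_mul_left _ h4
      _ = _ := by ring
  refine ⟨X, Y, hX.trans hB', hYB.trans hB', hXY, by rw [hXc]; exact hA4,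
    by rw [hYc]; exact hA4, ?_⟩
  -- `q` is positive
  have hq : 0 < q := by
    obtain ⟨x, _⟩ := Finset.card_pos.mp (by omega : 0 < B'.card)
    exact lt_of_le_of_lt (Nat.zero_le _) (col s(x, x)).2
  have hec : ec (junk col U) X Y ≤
      ∑ x ∈ X, ∑ c ∈ U, (B'.filter fun y => y ≠ x ∧ col s(x, y) = c).card := by
    rw [ec_eq_sum]
    refine sum_le_sum fun x hx => ?_
    refine le_trans (card_le_card ?_) card_biUnion_le
    intro y hy
    obtain ⟨hyY, hyU⟩ := mem_filter.mp hy
    rw [mem_biUnion]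
    refine ⟨col s(x, y), hyU, mem_filter.mpr ⟨hYB hyY, ?_, rfl⟩⟩
    rintro rfl
    exact Finset.disjoint_left.mp hXY hx hyY
  have h5 : Θ * ec (junk col U) X Y ≤ X.card * (q * B'.card) := by
    calc Θ * ec (junk col U) X Y ≤
        Θ * ∑ x ∈ X, ∑ c ∈ U, (B'.filter fun y => y ≠ x ∧ col s(x, y) = c).card :=
          Nat.mul_le_mul_left _ hec
      _ = ∑ x ∈ X, ∑ c ∈ U, Θ * (B'.filter fun y => y ≠ x ∧ col s(x, y) = c).card := by
          rw [mul_sum]
          exact sum_congr rfl fun x _ => mul_sum _ _ _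
      _ ≤ ∑ x ∈ X, ∑ c ∈ U, B'.card :=
          sum_le_sum fun x hx => sum_le_sum fun c hc => hdeg x (hX hx) c hc
      _ = X.card * (U.card * B'.card) := by
          simp only [sum_const, smul_eq_mul]
      _ ≤ X.card * (q * B'.card) := by
          refine Nat.mul_le_mul_left _ (Nat.mul_le_mul_right _ ?_)
          have := card_le_univ U
          rwa [Fintype.card_fin] at this
  have h6 : (3 * q) * (P * ec (junk col U) X Y) ≤ (3 * q) * (X.card * Y.card) := by
    calc (3 * q) * (P * ec (junk col U) X Y) = (3 * q * P) * ec (junk col U) X Y := by ring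
      _ ≤ Θ * ec (junk col U) X Y := Nat.mul_le_mul_right _ hP
      _ ≤ X.card * (q * B'.card) := h5
      _ ≤ X.card * (q * (3 * Y.card)) := by
          refine Nat.mul_le_mul_left _ (Nat.mul_le_mul_left _ ?_)
          rw [hYc]
          exact h3
      _ = (3 * q) * (X.card * Y.card) := by ring
  exact Nat.le_of_mul_le_mul_left h6 (by omega)

end MP01T
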