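import Mathlib

/-!
# MP_01c500_co, triangle-free graphs: definitions

`ec J X Y` counts the pairs of `X × Y` in the relation `J`.
`Sp J A S σ P`: every subset of `A` with at least `S` elements contains two disjoint subsets,
at most `σ` times smaller, such that the density of `J` between them is at most `1 / P`.
-/

set_option autoImplicit false

open Finset Classical

namespace MP01T

universe u v

/-- number of pairs `(x, y)` of `X × Y` with `J x y` -/
noncomputable def ec {V : Type u} (J : V → V → Prop) (X Y : Finset V) : ℕ :=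
  ((X ×ˢ Y).filter fun p => J p.1 p.2).card

/-- sparse pairs in all large subsets -/
def Sp {V : Type u} (J : V → V → Prop) (A : Finset V) (S σ P : ℕ) : Prop :=
  ∀ A' ⊆ A, S ≤ A'.card → ∃ X Y : Finset V, X ⊆ A' ∧ Y ⊆ A' ∧ Disjoint X Y ∧
    A'.card ≤ σ * X.card ∧ A'.card ≤ σ * Y.card ∧ P * ec J X Y ≤ X.card * Y.card

/-- copy of `G` inside `B`, with edges in the relation `R` -/
def Copy {V : Type u} {W : Type v} (R : V → V → Prop) (G : SimpleGraph W) (B : Finset V) : Prop :=
  ∃ f : W → V, Function.Injective f ∧ (∀ v, f v ∈ B) ∧ ∀ v w, G.Adj v w → R (f v) (f w)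

/-- the colour class -/
def cl {V : Type u} {q : ℕ} (col : Sym2 V → Fin q) (c : Fin q) (x y : V) : Prop := col s(x, y) = c

/-- the union of the colour classes of the colours in `U` -/
def junk {V : Type u} {q : ℕ} (col : Sym2 V → Fin q) (U : Finset (Fin q)) (x y : V) : Prop :=
  col s(x, y) ∈ U

/-- `t` pivots of colour `c` over `B` -/
def Piv {V : Type u} {q : ℕ} (col : Sym2 V → Fin q) (c : Fin q) (t : ℕ) (B : Finset V) : Prop :=
  ∃ T : Finset V, T.card = t ∧ Disjoint T B ∧ (∀ x ∈ T, ∀ y ∈ T, x ≠ y → col s(x, y) = c) ∧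
    ∀ x ∈ T, ∀ y ∈ B, col s(x, y) = c

section basic

variable {V : Type u}

theorem ec_mono {J : V → V → Prop} {X X' Y Y' : Finset V} (hX : X ⊆ X') (hY : Y ⊆ Y') :
    ec J X Y ≤ ec J X' Y' :=
  card_le_card (filter_subset_filter _ (product_subset_product hX hY))

theorem ec_le {J : V → V → Prop} {X Y : Finset V} : ec J X Y ≤ X.card * Y.card := by
  rw [ec, ← card_product]
  exact card_filter_le _ _

theorem ec_eq_sum (J : V → V → Prop) (X Y : Finset V) :
    ec J X Y = ∑ x ∈ X, (Y.filter fun y => J x y).card := by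
  rw [ec, card_filter, sum_product]
  exact sum_congr rfl fun x _ => (card_filter _ _).symm

theorem ec_comm {J : V → V → Prop} (hJ : ∀ x y, J x y → J y x) (X Y : Finset V) :
    ec J X Y = ec J Y X := by
  refine card_bij' (fun p _ => (p.2, p.1)) (fun p _ => (p.2, p.1)) ?_ ?_ ?_ ?_
  · rintro ⟨x, y⟩ h
    simp only [mem_filter, mem_product] at h ⊢
    exact ⟨⟨h.1.2, h.1.1⟩, hJ _ _ h.2⟩
  · rintro ⟨x, y⟩ h
    simp only [mem_filter, mem_product] at h ⊢
    exact ⟨⟨h.1.2, h.1.1⟩, hJ _ _ h.2⟩
  · rintro ⟨x, y⟩ _; rfl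
  · rintro ⟨x, y⟩ _; rfl

theorem ec_or_le {J R : V → V → Prop} (X Y : Finset V) :
    ec (fun x y => J x y ∨ R x y) X Y ≤ ec J X Y + ec R X Y := by
  unfold ec
  refine (card_le_card (t := ((X ×ˢ Y).filter fun p => J p.1 p.2) ∪
    ((X ×ˢ Y).filter fun p => R p.1 p.2)) ?_).trans (card_union_le _ _)
  intro p hp
  simp only [mem_filter, mem_union] at hp ⊢
  tauto

theorem cl_symm {q : ℕ} (col : Sym2 V → Fin q) (c : Fin q) (x y : V) (h : cl col c x y) :
    cl col c y x := by
  unfold cl at h ⊢
  rw [Sym2.eq_swap]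
  exact h

theorem junk_symm {q : ℕ} (col : Sym2 V → Fin q) (U : Finset (Fin q)) (x y : V)
    (h : junk col U x y) : junk col U y x := by
  unfold junk at h ⊢
  rw [Sym2.eq_swap]
  exact h

theorem ec_junk_insert {q : ℕ} (col : Sym2 V → Fin q) (U : Finset (Fin q)) (c : Fin q)
    (X Y : Finset V) : ec (junk col (insert c U)) X Y ≤ ec (junk col U) X Y + ec (cl col c) X Y := by
  have h : (junk col (insert c U)) = fun x y => junk col U x y ∨ cl col c x y := by
    funext x y
    unfold junk cl
    rw [mem_insert, or_comm]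
  rw [h]
  exact ec_or_le X Y

end basic

end MP01T
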