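import Pool.Agent.Lib_MP_01c500_t.Defs

/-!
# Embedding in an almost complete relation
-/

set_option autoImplicit false

open Finset Classical

namespace MP01T

universe u v

/-- Greedy proper colouring. PROOF. Induction on a finite set `E` of vertices: there is `κ` such that
`κ v ≠ κ w` for adjacent `v w ∈ E`; insert a vertex `u`: at most `D` colours are used by its neighbours. -/
theorem exists_proper {W : Type v} [Fintype W] (G : SimpleGraph W) {D : ℕ}
    (hD : ∀ v, (univ.filter fun w => G.Adj v w).card ≤ D) :
    ∃ κ : W → Fin (D + 1), ∀ v w, G.Adj v w → κ v ≠ κ w := by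
  have main : ∀ E : Finset W, ∃ κ : W → Fin (D + 1), ∀ v ∈ E, ∀ w ∈ E, G.Adj v w → κ v ≠ κ w := by
    intro E
    induction E using Finset.induction_on with
    | empty => exact ⟨fun _ => 0, fun v hv => absurd hv (notMem_empty v)⟩
    | insert u E hu ih =>
      obtain ⟨κ, hκ⟩ := ih
      obtain ⟨c, hc⟩ : ∃ c : Fin (D + 1), c ∉ (univ.filter fun w => G.Adj u w).image κ := by
        by_contra hcon
        push Not at hcon
        have h1 : (univ : Finset (Fin (D + 1))) ⊆ (univ.filter fun w => G.Adj u w).image κ :=
          fun c _ => hcon c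
        have h2 := (card_le_card h1).trans card_image_le
        rw [card_univ, Fintype.card_fin] at h2
        have := hD u
        omega
      have hc' : ∀ w, G.Adj u w → κ w ≠ c := fun w hw h =>
        hc (mem_image.2 ⟨w, mem_filter.2 ⟨mem_univ _, hw⟩, h⟩)
      refine ⟨Function.update κ u c, fun v hv w hw hvw => ?_⟩
      by_cases hvu : v = u
      · subst hvu
        have hwu : w ≠ v := hvw.ne'
        rw [Function.update_self, Function.update_of_ne hwu]
        exact (hc' w hvw).symm
      · by_cases hwu : w = u
        · subst hwu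
          rw [Function.update_self, Function.update_of_ne hvu]
          exact hc' v hvw.symm
        · rw [Function.update_of_ne hvu, Function.update_of_ne hwu]
          exact hκ v ((mem_insert.1 hv).resolve_left hvu) w ((mem_insert.1 hw).resolve_left hwu) hvw
  obtain ⟨κ, hκ⟩ := main univ
  exact ⟨κ, fun v w h => hκ v (mem_univ _) w (mem_univ _) h⟩

/-- PROOF. Let `U' i` be the set of `x ∈ U i` with `4 D #(J x ∩ U j) ≤ #(U j)` for all `j ≠ i`. For one `j`
at most `4 D b / P` elements fail, so (`8 D M ≤ P`, `M = card ι`) at least `b / 2` remain.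
Embed the vertices one after another (Finset induction: `f` injective on `E`, `f v ∈ U' (κ v)`, edges inside
`E` go to pairs not in `J`): a new vertex `v` has at most `D` embedded neighbours, each forbids at most
`b / (4 D)` elements of `U (κ v)`, together at most `b / 4`; and fewer than `b / 4` elements are used.
(`1 ≤ D`.) -/
theorem dense_embed {V : Type u} {W : Type v} [Fintype W] (G : SimpleGraph W) {D : ℕ} (hD1 : 1 ≤ D)
    (hD : ∀ v, (univ.filter fun w => G.Adj v w).card ≤ D) {ι : Type} [Fintype ι] (κ : W → ι)
    (hκ : ∀ v w, G.Adj v w → κ v ≠ κ w) {J : V → V → Prop} (hJ : ∀ x y, J x y → J y x)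
    {b P : ℕ} (hP : 8 * D * Fintype.card ι ≤ P) (hb : 4 * Fintype.card W < b) (U : ι → Finset V)
    (hU : ∀ i, (U i).card = b) (hdis : ∀ i j, i ≠ j → Disjoint (U i) (U j))
    (hsp : ∀ i j, i ≠ j → P * ec J (U i) (U j) ≤ (U i).card * (U j).card) :
    ∃ f : W → V, Function.Injective f ∧ (∀ v, f v ∈ U (κ v)) ∧ ∀ v w, G.Adj v w → ¬ J (f v) (f w) := by
  rcases isEmpty_or_nonempty W with hW | hW
  · exact ⟨fun w => isEmptyElim w, fun w => isEmptyElim w, fun w => isEmptyElim w,
      fun w => isEmptyElim w⟩
  have hb0 : 0 < b := by omega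
  obtain ⟨w0⟩ := hW
  have hV : Nonempty V := by
    have : (U (κ w0)).Nonempty := by
      rw [← card_pos, hU]; exact hb0
    exact ⟨this.choose⟩
  have hι : 0 < Fintype.card ι := Fintype.card_pos_iff.2 ⟨κ w0⟩
  -- the bad elements
  set bad : ι → ι → Finset V := fun i j =>
    (U i).filter fun x => b < 4 * D * ((U j).filter fun y => J x y).card with hbad
  have hbadc : ∀ i j, i ≠ j → P * (bad i j).card ≤ 4 * D * b := by
    intro i j hij
    have h1 : (bad i j).card * b ≤ 4 * D * ec J (U i) (U j) := by
      rw [ec_eq_sum, mul_sum]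
      calc (bad i j).card * b = ∑ x ∈ bad i j, b := by rw [sum_const, smul_eq_mul]
        _ ≤ ∑ x ∈ bad i j, 4 * D * ((U j).filter fun y => J x y).card :=
            sum_le_sum fun x hx => (mem_filter.1 hx).2.le
        _ ≤ ∑ x ∈ U i, 4 * D * ((U j).filter fun y => J x y).card :=
            sum_le_sum_of_subset (filter_subset _ _)
    have h2 := hsp i j hij
    rw [hU, hU] at h2
    have h3 : (P * (bad i j).card) * b ≤ (4 * D * b) * b := by
      calc (P * (bad i j).card) * b = P * ((bad i j).card * b) := by ring
        _ ≤ P * (4 * D * ec J (U i) (U j)) := Nat.mul_le_mul_left _ h1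
        _ = 4 * D * (P * ec J (U i) (U j)) := by ring
        _ ≤ 4 * D * (b * b) := Nat.mul_le_mul_left _ h2
        _ = (4 * D * b) * b := by ring
    exact Nat.le_of_mul_le_mul_right h3 hb0
  set U' : ι → Finset V := fun i =>
    (U i).filter fun x => ∀ j, j ≠ i → 4 * D * ((U j).filter fun y => J x y).card ≤ b with hU'
  have hU'c : ∀ i, b ≤ 2 * (U' i).card := by
    intro i
    have h1 : U i ⊆ U' i ∪ (univ.filter fun j => j ≠ i).biUnion (fun j => bad i j) := by
      intro x hx
      by_cases h : ∀ j, j ≠ i → 4 * D * ((U j).filter fun y => J x y).card ≤ b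
      · exact mem_union_left _ (mem_filter.2 ⟨hx, h⟩)
      · push Not at h
        obtain ⟨j, hj, hj2⟩ := h
        exact mem_union_right _ (mem_biUnion.2 ⟨j, mem_filter.2 ⟨mem_univ _, hj⟩,
          mem_filter.2 ⟨hx, hj2⟩⟩)
    have h2 := (card_le_card h1).trans (card_union_le _ _)
    rw [hU] at h2
    set Z := ((univ.filter fun j => j ≠ i).biUnion (fun j => bad i j)).card with hZ
    have h3 : P * Z ≤ Fintype.card ι * (4 * D * b) := by
      calc P * Z ≤ P * ∑ j ∈ univ.filter (fun j => j ≠ i), (bad i j).card :=
            Nat.mul_le_mul_left _ card_biUnion_le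
        _ = ∑ j ∈ univ.filter (fun j => j ≠ i), P * (bad i j).card := mul_sum _ _ _
        _ ≤ ∑ j ∈ univ.filter (fun j => j ≠ i), 4 * D * b :=
            sum_le_sum fun j hj => hbadc i j (mem_filter.1 hj).2.symm
        _ = (univ.filter (fun j => j ≠ i)).card * (4 * D * b) := by rw [sum_const, smul_eq_mul]
        _ ≤ Fintype.card ι * (4 * D * b) := by
            apply Nat.mul_le_mul_right
            rw [← card_univ]
            exact card_le_card (filter_subset _ _)
    have h4 : 8 * D * Fintype.card ι * Z ≤ Fintype.card ι * (4 * D * b) :=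
      (Nat.mul_le_mul_right _ hP).trans h3
    have h5 : (4 * D * Fintype.card ι) * (2 * Z) ≤ (4 * D * Fintype.card ι) * b := by
      calc (4 * D * Fintype.card ι) * (2 * Z) = 8 * D * Fintype.card ι * Z := by ring
        _ ≤ Fintype.card ι * (4 * D * b) := h4
        _ = (4 * D * Fintype.card ι) * b := by ring
    have h6 : 2 * Z ≤ b := Nat.le_of_mul_le_mul_left h5 (by positivity)
    omega
  -- the greedy embedding
  have main : ∀ E : Finset W, ∃ f : W → V, Set.InjOn f E ∧ (∀ v ∈ E, f v ∈ U' (κ v)) ∧
      ∀ v ∈ E, ∀ w ∈ E, G.Adj v w → ¬ J (f v) (f w) := by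
    intro E
    induction E using Finset.induction_on with
    | empty =>
      exact ⟨fun _ => hV.some, by simp, fun v hv => absurd hv (notMem_empty v),
        fun v hv => absurd hv (notMem_empty v)⟩
    | insert u E hu ih =>
      obtain ⟨f, hf1, hf2, hf3⟩ := ih
      -- forbidden elements
      set N := E.filter fun w => G.Adj u w with hN
      set Fb := N.biUnion (fun w => (U (κ u)).filter fun y => J (f w) y) with hFb
      have hNc : N.card ≤ D := by
        refine le_trans (card_le_card ?_) (hD u)
        intro w hw
        exact mem_filter.2 ⟨mem_univ _, (mem_filter.1 hw).2⟩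
      have hFc : 4 * Fb.card ≤ b := by
        have h1 : 4 * D * Fb.card ≤ D * b := by
          calc 4 * D * Fb.card ≤ 4 * D * ∑ w ∈ N, ((U (κ u)).filter fun y => J (f w) y).card :=
                Nat.mul_le_mul_left _ card_biUnion_le
            _ = ∑ w ∈ N, 4 * D * ((U (κ u)).filter fun y => J (f w) y).card := mul_sum _ _ _
            _ ≤ ∑ w ∈ N, b := by
                refine sum_le_sum fun w hw => ?_
                have hw' := mem_filter.1 hw
                exact (mem_filter.1 (hf2 w hw'.1)).2 (κ u) (hκ u w hw'.2)
            _ = N.card * b := by rw [sum_const, smul_eq_mul]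
            _ ≤ D * b := Nat.mul_le_mul_right _ hNc
        have h2 : D * (4 * Fb.card) ≤ D * b := by
          calc D * (4 * Fb.card) = 4 * D * Fb.card := by ring
            _ ≤ D * b := h1
        exact Nat.le_of_mul_le_mul_left h2 hD1
      have hEc : (E.image f).card ≤ Fintype.card W :=
        card_image_le.trans (card_le_univ E)
      obtain ⟨x, hx, hxn⟩ : ∃ x ∈ U' (κ u), x ∉ Fb ∪ E.image f := by
        by_contra hcon
        push Not at hcon
        have h1 := (card_le_card (show U' (κ u) ⊆ Fb ∪ E.image f from hcon)).trans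
          (card_union_le _ _)
        have h2 := hU'c (κ u)
        omega
      rw [mem_union, not_or] at hxn
      have hxJ : ∀ w ∈ E, G.Adj u w → ¬ J (f w) x := fun w hw huw hj =>
        hxn.1 (mem_biUnion.2 ⟨w, mem_filter.2 ⟨hw, huw⟩, mem_filter.2 ⟨(mem_filter.1 hx).1, hj⟩⟩)
      have hne : ∀ w ∈ E, w ≠ u := fun w hw h => hu (h ▸ hw)
      refine ⟨Function.update f u x, ?_, ?_, ?_⟩
      · intro v hv w hw hvw
        rw [mem_coe, mem_insert] at hv hw
        by_cases hvu : v = u
        · by_cases hwu : w = u
          · rw [hvu, hwu]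
          · exfalso
            rw [hvu, Function.update_self, Function.update_of_ne hwu] at hvw
            exact hxn.2 (mem_image.2 ⟨w, hw.resolve_left hwu, hvw.symm⟩)
        · by_cases hwu : w = u
          · exfalso
            rw [hwu, Function.update_self, Function.update_of_ne hvu] at hvw
            exact hxn.2 (mem_image.2 ⟨v, hv.resolve_left hvu, hvw⟩)
          · rw [Function.update_of_ne hvu, Function.update_of_ne hwu] at hvw
            exact hf1 (hv.resolve_left hvu) (hw.resolve_left hwu) hvw
      · intro v hv
        by_cases hvu : v = u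
        · rw [hvu, Function.update_self]; exact hx
        · rw [Function.update_of_ne hvu]
          exact hf2 v ((mem_insert.1 hv).resolve_left hvu)
      · intro v hv w hw hvw
        by_cases hvu : v = u
        · subst hvu
          have hwv : w ≠ v := hvw.ne'
          rw [Function.update_self, Function.update_of_ne hwv]
          exact fun hj => hxJ w ((mem_insert.1 hw).resolve_left hwv) hvw (hJ _ _ hj)
        · by_cases hwu : w = u
          · subst hwu
            rw [Function.update_self, Function.update_of_ne hvu]
            exact hxJ v ((mem_insert.1 hv).resolve_left hvu) hvw.symm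
          · rw [Function.update_of_ne hvu, Function.update_of_ne hwu]
            exact hf3 v ((mem_insert.1 hv).resolve_left hvu) w ((mem_insert.1 hw).resolve_left hwu)
              hvw
  obtain ⟨f, hf1, hf2, hf3⟩ := main univ
  refine ⟨f, fun v w h => hf1 (mem_coe.2 (mem_univ _)) (mem_coe.2 (mem_univ _)) h,
    fun v => (mem_filter.1 (hf2 v (mem_univ _))).1, fun v w h => hf3 v (mem_univ _) w (mem_univ _) h⟩

end MP01T
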