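import Pool.Agent.Lib_MP_01c500_t.Main

/-!
# The final bounds
-/

set_option autoImplicit false

open Finset Classical

namespace MP01T

/-- the constant -/
def C1 (q : ℕ) : ℕ := (2 * (q + 1) ^ 2 * (q + 2) + 1) * 3 ^ q * (8 * 4 ^ q)

theorem st_le {q h lam D t : ℕ} (hh : 2 ≤ h) (hD : 1 ≤ D) :
    st q h lam D t * (q + 1) + (h + 1) ≤
      C1 q * h ^ (q + 1) * (lam + 1) ^ (q - 2) * (t + D) := by
  set L := (lam + 1) ^ (q - 2) with hL
  have hL1 : 1 ≤ L := Nat.one_le_pow _ _ (by omega)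
  set M := 8 * 4 ^ q * (h * L) with hM
  have h4 : 1 ≤ 4 ^ q := Nat.one_le_pow _ _ (by norm_num)
  have hhL : h ≤ h * L := Nat.le_mul_of_pos_right _ hL1
  have hhL4 : h * L ≤ 4 ^ q * (h * L) := Nat.le_mul_of_pos_left _ h4
  have hpm : pm q h lam ≤ 5 * (4 ^ q * (h * L)) := by
    unfold pm
    rw [mul_pow, ← hL]
    calc (3 * h + 4) * (4 ^ (q - 2) * L) ≤ (5 * h) * (4 ^ q * L) :=
          Nat.mul_le_mul (by omega) (Nat.mul_le_mul_right _
            (Nat.pow_le_pow_right (by norm_num) (by omega)))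
      _ = _ := by ring
  have hq4 : q + 2 ≤ 3 * 4 ^ q := by
    have : q < 4 ^ q := Nat.lt_pow_self (by norm_num)
    omega
  have hq4' : q + 2 ≤ 3 * (4 ^ q * (h * L)) := by
    have : 4 ^ q ≤ 4 ^ q * (h * L) := Nat.le_mul_of_pos_right _ (by omega)
    omega
  have hth : th q h lam ≤ M := by
    unfold th
    rw [hM, mul_assoc]
    omega
  have hpm2 : h + 2 + pm q h lam ≤ M := by
    rw [hM, mul_assoc]
    omega
  set T := t + D with hT
  have hT1 : 1 ≤ T := by omega
  have hM1 : h + 1 ≤ M := by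
    rw [hM, mul_assoc]
    omega
  have hMT : M ≤ M * T := Nat.le_mul_of_pos_right _ hT1
  have ht' : th q h lam * (q * t) ≤ q * (M * T) := by
    calc th q h lam * (q * t) ≤ M * (q * T) := Nat.mul_le_mul hth (Nat.mul_le_mul_left _ (by omega))
      _ = _ := by ring
  have haa : aa q h lam D t ≤ (q + 2) * (M * T) := by
    unfold aa
    have h1 : (h + 2 + pm q h lam) * D ≤ M * T := Nat.mul_le_mul hpm2 (by omega)
    have h2 : (q + 2) * (M * T) = q * (M * T) + M * T + M * T := by ring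
    omega
  have hLa : La q h lam D t ≤ (q + 1) * (3 * h) ^ q * ((q + 2) * (M * T)) := by
    unfold La
    refine Nat.mul_le_mul (Nat.mul_le_mul_left _ (Nat.pow_le_pow_left (by omega) _)) haa
  have h3h : 1 ≤ (3 * h) ^ q := Nat.one_le_pow _ _ (by omega)
  have hst : st q h lam D t ≤ 2 * (q + 1) * (q + 2) * (3 * h) ^ q * (M * T) := by
    unfold st
    have h1 : 1 + q * (M * T) ≤ (q + 1) * (M * T) := by
      have : (q + 1) * (M * T) = q * (M * T) + M * T := by ring
      omega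
    have h2 : (q + 1) * (M * T) ≤ (q + 1) * (3 * h) ^ q * ((q + 2) * (M * T)) := by
      calc (q + 1) * (M * T) ≤ ((q + 1) * (M * T)) * ((3 * h) ^ q * (q + 2)) :=
            Nat.le_mul_of_pos_right _ (Nat.mul_pos h3h (by omega))
        _ = _ := by ring
    have h3 : 2 * (q + 1) * (q + 2) * (3 * h) ^ q * (M * T)
        = (q + 1) * (3 * h) ^ q * ((q + 2) * (M * T))
          + (q + 1) * (3 * h) ^ q * ((q + 2) * (M * T)) := by ring
    omega
  calc st q h lam D t * (q + 1) + (h + 1)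
      ≤ (2 * (q + 1) * (q + 2) * (3 * h) ^ q * (M * T)) * (q + 1) + (3 * h) ^ q * (M * T) := by
        refine Nat.add_le_add (Nat.mul_le_mul_right _ hst) ?_
        exact (hM1.trans hMT).trans (Nat.le_mul_of_pos_left _ h3h)
    _ = C1 q * h ^ (q + 1) * L * T := by
        rw [hM]; unfold C1; rw [mul_pow]; ring

theorem h_le {m : ℕ} (hm : 1 ≤ m) : (Nat.clog 2 (2 * m + 1) : ℝ) ≤ 5 * Real.log (m + 1) := by
  have h1 : 2 ^ (Nat.clog 2 (2 * m + 1) - 1) < 2 * m + 1 :=
    Nat.pow_pred_clog_lt_self (by norm_num) (by omega)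
  have hc1 : 1 ≤ Nat.clog 2 (2 * m + 1) := Nat.clog_pos (by norm_num) (by omega)
  obtain ⟨k, hk⟩ : ∃ k, Nat.clog 2 (2 * m + 1) = k + 1 := ⟨Nat.clog 2 (2 * m + 1) - 1, by omega⟩
  rw [hk] at h1 ⊢
  simp only [Nat.add_sub_cancel] at h1
  have hm' : (1 : ℝ) ≤ m := by exact_mod_cast hm
  have h2 : (2 : ℝ) ^ k ≤ 2 * (m + 1) := by
    have : (2 : ℝ) ^ k < 2 * m + 1 := by exact_mod_cast h1
    linarith
  have h3 : (k : ℝ) * Real.log 2 ≤ Real.log 2 + Real.log (m + 1) := by
    have := Real.log_le_log (by positivity) h2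
    rwa [Real.log_pow, Real.log_mul (by norm_num) (by positivity)] at this
  have h4 : Real.log 2 ≤ Real.log (m + 1) := Real.log_le_log (by norm_num) (by linarith)
  have h5 : (0.69 : ℝ) < Real.log 2 := by linarith [Real.log_two_gt_d9]
  push_cast
  have h6 : ((k : ℝ) + 1) * Real.log 2 ≤ 3 * Real.log (m + 1) := by nlinarith
  have h7 : 0 < Real.log (m + 1) := by linarith
  nlinarith [(k : ℕ).cast_nonneg (α := ℝ)]

/-- general form -/
theorem general (q : ℕ) : ∀ (V : Type) [Fintype V] (H : SimpleGraph V) [DecidableRel H.Adj],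
      (∀ v : V, ∃ w : V, H.Adj v w) →
      ∀ (A : Finset V) (D lam : ℕ),
        (∀ v : V, v ∉ A → {w : V | w ∉ A ∧ H.Adj v w}.ncard ≤ D) →
        (∀ v w : V, v ∉ A → w ∉ A → H.Adj v w →
          {u : V | u ∉ A ∧ H.Adj u v ∧ H.Adj u w}.ncard ≤ lam) →
      ∃ n : ℕ, (n : ℝ) ≤ (2 : ℝ) ^ ((2 * 5 ^ (q + 1) * C1 q : ℕ) * ((A.card : ℝ) + D) *
          ((lam : ℝ) + 1) ^ (q - 2) * Real.log ((H.edgeFinset.card : ℝ) + 1) ^ (q + 1)) ∧
        ∀ col : Sym2 (Fin n) → Fin q, ∃ i : Fin q, ∃ f : V → Fin n,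
          Function.Injective f ∧ ∀ u v : V, H.Adj u v → col s(f u, f v) = i := by
  intro V _ H _ hiso A D lam hD hlam
  set m := H.edgeFinset.card with hm
  have hVm : Fintype.card V ≤ 2 * m := by
    rw [hm, ← H.sum_degrees_eq_twice_card_edges, Fintype.card, card_eq_sum_ones]
    refine sum_le_sum fun v _ => ?_
    obtain ⟨w, hw⟩ := hiso v
    exact (H.degree_pos_iff_exists_adj v).2 ⟨w, hw⟩
  rcases isEmpty_or_nonempty V with hV | ⟨⟨v0⟩⟩
  · refine ⟨1, ?_, fun col => ⟨col s(0, 0), fun v => (hV.false v).elim, fun v => (hV.false v).elim,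
      fun v => (hV.false v).elim⟩⟩
    have h1 : (1 : ℝ) ≤ 2 := by norm_num
    have h0 : 0 ≤ Real.log ((m : ℝ) + 1) := Real.log_nonneg (by
      have := (m : ℕ).cast_nonneg (α := ℝ)
      linarith)
    have := Real.one_le_rpow (x := 2) (z := (2 * 5 ^ (q + 1) * C1 q : ℕ) * ((A.card : ℝ) + D) *
          ((lam : ℝ) + 1) ^ (q - 2) * Real.log ((m : ℝ) + 1) ^ (q + 1)) h1 (by positivity)
    simpa using this
  · obtain ⟨w0, hw0⟩ := hiso v0
    have hm1 : 1 ≤ m := by
      rw [hm, Nat.one_le_iff_ne_zero, Ne, card_eq_zero]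
      intro he
      have : s(v0, w0) ∈ H.edgeFinset := by
        rw [SimpleGraph.mem_edgeFinset]; exact hw0
      rw [he] at this
      exact notMem_empty _ this
    have htD : 1 ≤ A.card + D := by
      by_contra hcon
      have hA0 : A = ∅ := card_eq_zero.1 (by omega)
      have hD0 : D = 0 := by omega
      have := hD v0 (by rw [hA0]; exact notMem_empty _)
      rw [hD0, Nat.le_zero, Set.ncard_eq_zero (Set.toFinite _)] at this
      have hw : w0 ∈ {w : V | w ∉ A ∧ H.Adj v0 w} := ⟨by rw [hA0]; exact notMem_empty _, hw0⟩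
      rw [this] at hw
      exact hw
    set h := Nat.clog 2 (2 * m + 1) with hh
    have h2h : 2 * m + 1 ≤ 2 ^ h := Nat.le_pow_clog (by norm_num) _
    have hh2 : 2 ≤ h := by
      by_contra hcon
      have : 2 ^ h ≤ 2 ^ 1 := Nat.pow_le_pow_right (by norm_num) (by omega)
      omega
    set D' := max 1 (min D (Fintype.card V)) with hD'
    have hD'1 : 1 ≤ D' := le_max_left _ _
    have hD'2 : D' ≤ 2 * m := by
      rw [hD']
      refine max_le (by omega) ((min_le_right _ _).trans hVm)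
    have hT : A.card + D' ≤ 2 * (A.card + D) := by
      have : D' ≤ max 1 D := max_le_max le_rfl (min_le_left _ _)
      have h3 : max 1 D ≤ 1 + D := by omega
      rcases Nat.eq_zero_or_pos D with hD0 | hD0
      · rw [hD0] at this htD ⊢
        simp only [max_eq_left (Nat.zero_le 1)] at this
        omega
      · rw [max_eq_right (show 1 ≤ D from hD0)] at this
        omega
    have hcount : ∀ (p : V → Prop), {w : V | p w}.ncard = (univ.filter fun w => p w).card := by
      intro p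
      rw [← Set.ncard_coe_finset]
      congr 1
      ext w
      simp
    set N := 2 ^ (st q h lam D' A.card * (q + 1)) * (2 * Fintype.card V + 2) with hN
    refine ⟨N, ?_, ?_⟩
    · have h1 : N ≤ 2 ^ (C1 q * h ^ (q + 1) * (lam + 1) ^ (q - 2) * (A.card + D')) := by
        refine le_trans ?_ (Nat.pow_le_pow_right (by norm_num)
          (st_le (q := q) (lam := lam) (t := A.card) hh2 hD'1))
        rw [pow_add 2 (st q h lam D' A.card * (q + 1)), hN, pow_succ]
        refine Nat.mul_le_mul_left _ ?_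
        omega
      have h2 : (N : ℝ) ≤ (2 : ℝ) ^ (((C1 q * h ^ (q + 1) * (lam + 1) ^ (q - 2) *
          (A.card + D') : ℕ)) : ℝ) := by
        rw [Real.rpow_natCast]
        exact_mod_cast h1
      refine h2.trans (Real.rpow_le_rpow_of_exponent_le (by norm_num) ?_)
      have hhl : (h : ℝ) ≤ 5 * Real.log (m + 1) := h_le hm1
      have h0 : 0 ≤ Real.log ((m : ℝ) + 1) := Real.log_nonneg (by
        have := (m : ℕ).cast_nonneg (α := ℝ)
        linarith)
      have hT' : ((A.card : ℝ) + D') ≤ 2 * ((A.card : ℝ) + D) := by exact_mod_cast hT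
      push_cast
      calc (C1 q : ℝ) * (h : ℝ) ^ (q + 1) * ((lam : ℝ) + 1) ^ (q - 2) * ((A.card : ℝ) + D')
          ≤ (C1 q : ℝ) * (5 * Real.log (m + 1)) ^ (q + 1) * ((lam : ℝ) + 1) ^ (q - 2) *
            (2 * ((A.card : ℝ) + D)) := by
            gcongr
        _ = _ := by rw [mul_pow]; ring
    · intro col
      refine ramsey H A (D := D') (lam := lam) (h := h) hD'1 ?_ ?_ (by omega) (by omega) col ?_
      · intro v hv
        have h1 := hD v hv
        rw [hcount] at h1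
        rw [hD']
        refine Nat.le_trans (Nat.le_min.2 ⟨?_, card_le_univ _⟩) (Nat.le_max_right _ _)
        convert h1
      · intro v w hv hw hvw
        have h1 := hlam v w hv hw hvw
        rw [hcount] at h1
        convert h1
      · rw [Fintype.card_fin]

/-- the vertices of degree above `√m` added to the deleted set -/
theorem few (q : ℕ) : ∀ (V : Type) [Fintype V] (H : SimpleGraph V) [DecidableRel H.Adj],
      (∀ v : V, ∃ w : V, H.Adj v w) →
      ∀ (A : Finset V) (lam : ℕ),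
        (∀ v w : V, v ∉ A → w ∉ A → H.Adj v w →
          {u : V | u ∉ A ∧ H.Adj u v ∧ H.Adj u w}.ncard ≤ lam) →
      ∃ n : ℕ, (n : ℝ) ≤ (2 : ℝ) ^ ((3 * (2 * 5 ^ (q + 1) * C1 q) : ℕ) *
          ((A.card : ℝ) + Real.sqrt (H.edgeFinset.card : ℝ)) *
          ((lam : ℝ) + 1) ^ (q - 2) * Real.log ((H.edgeFinset.card : ℝ) + 1) ^ (q + 1)) ∧
        ∀ col : Sym2 (Fin n) → Fin q, ∃ i : Fin q, ∃ f : V → Fin n,
          Function.Injective f ∧ ∀ u v : V, H.Adj u v → col s(f u, f v) = i := by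
  intro V _ H _ hiso A0 lam hlam
  set m := H.edgeFinset.card with hm
  set s := Nat.sqrt m with hs
  set A : Finset V := univ.filter fun v => s < H.degree v with hA
  have hd0 : ∀ v : V, v ∉ A0 ∪ A → {w : V | w ∉ A0 ∪ A ∧ H.Adj v w}.ncard ≤ s := by
    intro v hv
    have h1 : H.degree v ≤ s := by
      by_contra hcon
      exact hv (mem_union_right _ (mem_filter.2 ⟨mem_univ _, not_le.1 hcon⟩))
    refine le_trans ?_ h1
    rw [← H.card_neighborFinset_eq_degree, ← Set.ncard_coe_finset]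
    refine Set.ncard_le_ncard ?_ (Set.toFinite _)
    intro w hw
    rw [mem_coe, SimpleGraph.mem_neighborFinset]
    exact hw.2
  have hl0 : ∀ v w : V, v ∉ A0 ∪ A → w ∉ A0 ∪ A → H.Adj v w →
      {u : V | u ∉ A0 ∪ A ∧ H.Adj u v ∧ H.Adj u w}.ncard ≤ lam := by
    intro v w hv hw hvw
    refine le_trans (Set.ncard_le_ncard ?_ (Set.toFinite _))
      (hlam v w (fun h => hv (mem_union_left _ h)) (fun h => hw (mem_union_left _ h)) hvw)
    intro u hu
    exact ⟨fun h => hu.1 (mem_union_left _ h), hu.2⟩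
  obtain ⟨n, hn1, hn2⟩ := general q V H hiso (A0 ∪ A) s lam hd0 hl0
  refine ⟨n, hn1.trans (Real.rpow_le_rpow_of_exponent_le (by norm_num) ?_), hn2⟩
  have h0 : 0 ≤ Real.log ((m : ℝ) + 1) := Real.log_nonneg (by
    have := (m : ℕ).cast_nonneg (α := ℝ)
    linarith)
  have hs1 : (s : ℝ) ≤ Real.sqrt m := by
    rw [hs]; exact Real.nat_sqrt_le_real_sqrt
  have hs2 : Real.sqrt m ≤ (s : ℝ) + 1 := by
    rw [hs]; exact Real.real_sqrt_le_nat_sqrt_succ
  have hcA : A.card * (s + 1) ≤ 2 * m := by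
    rw [hm, ← H.sum_degrees_eq_twice_card_edges]
    calc A.card * (s + 1) = ∑ v ∈ A, (s + 1) := by rw [sum_const, smul_eq_mul]
      _ ≤ ∑ v ∈ A, H.degree v := sum_le_sum fun v hv => (mem_filter.1 hv).2
      _ ≤ ∑ v, H.degree v := sum_le_sum_of_subset (subset_univ _)
  have hcA' : (A.card : ℝ) ≤ 2 * Real.sqrt m := by
    have h1 : (A.card : ℝ) * ((s : ℝ) + 1) ≤ 2 * m := by exact_mod_cast hcA
    have h2 : (A.card : ℝ) * Real.sqrt m ≤ 2 * m :=
      (mul_le_mul_of_nonneg_left hs2 (Nat.cast_nonneg _)).trans h1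
    rcases Nat.eq_zero_or_pos m with hm0 | hm0
    · have h3 : A.card * (s + 1) = 0 := by rw [hm0] at hcA; omega
      have h4 : A.card = 0 := by
        rcases Nat.mul_eq_zero.1 h3 with h5 | h5
        · exact h5
        · omega
      rw [h4]
      have := Real.sqrt_nonneg (m : ℝ)
      push_cast
      linarith
    · have h3 : 0 < Real.sqrt m := Real.sqrt_pos.2 (by exact_mod_cast hm0)
      have h4 : Real.sqrt m * Real.sqrt m = m := Real.mul_self_sqrt (Nat.cast_nonneg _)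
      have h5 : (A.card : ℝ) * Real.sqrt m ≤ (2 * Real.sqrt m) * Real.sqrt m := by
        rw [mul_assoc, h4]; exact h2
      exact le_of_mul_le_mul_right h5 h3
  have h7 : ((A0 ∪ A).card : ℝ) ≤ (A0.card : ℝ) + A.card := by
    exact_mod_cast card_union_le A0 A
  have h8 : (0 : ℝ) ≤ A0.card := Nat.cast_nonneg _
  have h6 : ((A0 ∪ A).card : ℝ) + s ≤ 3 * ((A0.card : ℝ) + Real.sqrt m) := by linarith
  push_cast
  calc 2 * 5 ^ (q + 1) * (C1 q : ℝ) * (((A0 ∪ A).card : ℝ) + s) * ((lam : ℝ) + 1) ^ (q - 2) *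
        Real.log ((m : ℝ) + 1) ^ (q + 1)
      ≤ 2 * 5 ^ (q + 1) * (C1 q : ℝ) * (3 * ((A0.card : ℝ) + Real.sqrt m)) *
        ((lam : ℝ) + 1) ^ (q - 2) * Real.log ((m : ℝ) + 1) ^ (q + 1) := by gcongr
    _ = _ := by ring

theorem final : ∀ q : ℕ, 2 ≤ q → ∃ C : ℝ,
    ∀ (V : Type) [Fintype V] (H : SimpleGraph V) [DecidableRel H.Adj],
      (∀ v : V, ∃ w : V, H.Adj v w) →
      ∀ (A : Finset V) (D lam : ℕ),
        (∀ v : V, v ∉ A → {w : V | w ∉ A ∧ H.Adj v w}.ncard ≤ D) →
        (∀ v w : V, v ∉ A → w ∉ A → H.Adj v w →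
          {u : V | u ∉ A ∧ H.Adj u v ∧ H.Adj u w}.ncard ≤ lam) →
      ∃ n : ℕ, (n : ℝ) ≤ (2 : ℝ) ^
          (C * ((A.card : ℝ) + min (D : ℝ) (Real.sqrt (H.edgeFinset.card : ℝ))) *
            ((lam : ℝ) + 1) ^ (q - 2) * Real.log ((H.edgeFinset.card : ℝ) + 1) ^ (q + 1)) ∧
        ∀ col : Sym2 (Fin n) → Fin q, ∃ i : Fin q, ∃ f : V → Fin n,
          Function.Injective f ∧ ∀ u v : V, H.Adj u v → col s(f u, f v) = i := by
  intro q _
  refine ⟨((3 * (2 * 5 ^ (q + 1) * C1 q) : ℕ) : ℝ), ?_⟩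
  intro V _ H _ hiso A D lam hD hlam
  rcases le_total (D : ℝ) (Real.sqrt (H.edgeFinset.card : ℝ)) with hc | hc
  · obtain ⟨n, hn1, hn2⟩ := general q V H hiso A D lam hD hlam
    refine ⟨n, hn1.trans (Real.rpow_le_rpow_of_exponent_le (by norm_num) ?_), hn2⟩
    rw [min_eq_left hc]
    have h0 : 0 ≤ Real.log ((H.edgeFinset.card : ℝ) + 1) := Real.log_nonneg (by
      have := (H.edgeFinset.card : ℕ).cast_nonneg (α := ℝ)
      linarith)
    have hK : ((2 * 5 ^ (q + 1) * C1 q : ℕ) : ℝ) ≤ ((3 * (2 * 5 ^ (q + 1) * C1 q) : ℕ) : ℝ) := by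
      exact_mod_cast Nat.le_mul_of_pos_left _ (by norm_num)
    refine mul_le_mul_of_nonneg_right (mul_le_mul_of_nonneg_right (mul_le_mul_of_nonneg_right hK
      (by positivity)) (by positivity)) (by positivity)
  · rw [min_eq_right hc]
    exact few q V H hiso A lam hlam

end MP01T
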