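import Pool.Agent.Lib_MP_01c500_t.Stage

/-!
# Pivots for one colour after another
-/

set_option autoImplicit false

open Finset Classical

namespace MP01T

universe u v

theorem ec_junk_empty {V : Type u} {q : ℕ} (col : Sym2 V → Fin q) (X Y : Finset V) :
    ec (junk col ∅) X Y = 0 := by
  have h7 : ((X ×ˢ Y).filter fun p => junk col ∅ p.1 p.2) = ∅ :=
    filter_eq_empty_iff.2 fun p _ h => notMem_empty _ (h : col s(p.1, p.2) ∈ (∅ : Finset (Fin q)))
  unfold ec
  rw [h7, card_empty]

theorem pe_le (h lam : ℕ) : ∀ k, pe h lam (k + 1) = (3 * h + 4) * (4 * (lam + 1)) ^ k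
  | 0 => by simp [pe]
  | (k + 1) => by
    have := pe_le h lam k
    show 4 * (lam + 1) * pe h lam (k + 1) = _
    rw [this]; ring

/-- the bound for the exponents -/
def pm (q h lam : ℕ) : ℕ := (3 * h + 4) * (4 * (lam + 1)) ^ (q - 2)

theorem pe_le_pm {q h lam j : ℕ} (hj : j < q) : pe h lam j ≤ pm q h lam := by
  unfold pm
  cases j with
  | zero =>
    show 1 ≤ _
    have : 1 ≤ (4 * (lam + 1)) ^ (q - 2) := Nat.one_le_pow _ _ (by omega)
    nlinarith
  | succ j =>
    rw [pe_le]
    refine Nat.mul_le_mul_left _ (Nat.pow_le_pow_right (by omega) (by omega))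

/-- log of the chasing threshold -/
def th (q h lam : ℕ) : ℕ := pm q h lam + q + 2

/-- log of the loss of a sparse pair -/
def aa (q h lam D t : ℕ) : ℕ := 2 + th q h lam * (q * t) + (h + 2 + pm q h lam) * D

/-- log of the loss of the colour induction -/
def La (q h lam D t : ℕ) : ℕ := (q + 1) * (2 * h + 2) ^ q * aa q h lam D t

/-- log of the loss of a step -/
def st (q h lam D t : ℕ) : ℕ := La q h lam D t + 1 + th q h lam * (q * t)

theorem main {V : Type u} {W : Type v} [Fintype W] {G : SimpleGraph W} {D lam h q t : ℕ}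
    (hD1 : 1 ≤ D) (hD : ∀ v, (univ.filter fun w => G.Adj v w).card ≤ D)
    (hlam : ∀ v w, G.Adj v w → (univ.filter fun u => G.Adj u v ∧ G.Adj u w).card ≤ lam)
    (hn : Fintype.card W ≤ 2 ^ h) (hDh : D + 1 ≤ 2 ^ h) {col : Sym2 V → Fin q} :
    ∀ (u : ℕ) (U : Finset (Fin q)) (B : Finset V), U.card = u → (∀ c, c ∉ U → Piv col c t B) →
      2 ^ (st q h lam D t * (u + 1)) * (2 * Fintype.card W + 2) ≤ B.card →
      ∃ c, ∃ B' : Finset V, Piv col c t B' ∧ Copy (cl col c) G B' := by
  intro u
  induction u with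
  | zero =>
    intro U B hU hp hB
    have hU0 : U = ∅ := card_eq_zero.1 hU
    subst hU0
    by_contra hcon
    push Not at hcon
    set Λ := La q h lam D t with hΛ
    set Θ := 2 ^ th q h lam with hΘ
    set a := aa q h lam D t with ha
    have hΘt : Θ ^ (q * t) = 2 ^ (th q h lam * (q * t)) := by rw [hΘ, ← pow_mul]
    set S := B.card / 2 ^ Λ with hS
    have hS1 : 2 ^ (1 + th q h lam * (q * t)) * (2 * Fintype.card W + 2) ≤ S := by
      rw [hS, Nat.le_div_iff_mul_le (by positivity)]
      refine le_trans ?_ hB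
      rw [zero_add, mul_one, show st q h lam D t = Λ + (1 + th q h lam * (q * t)) by
        rw [hΛ]; unfold st; ring, pow_add 2 Λ]
      apply le_of_eq; ring
    have hS2 : 2 * Fintype.card W + 1 ≤ S := by
      refine le_trans ?_ hS1
      exact le_trans (by omega) (Nat.le_mul_of_pos_left _ (by positivity))
    have hS3 : 2 * Θ ^ (q * t) ≤ S := by
      refine le_trans ?_ hS1
      rw [hΘt, pow_add 2 1, pow_one]
      exact Nat.le_mul_of_pos_right _ (by omega)
    have hΘ1 : 1 ≤ Θ := Nat.one_le_two_pow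
    have hq3 : 3 * q * 1 ≤ Θ := by
      rw [hΘ]
      unfold th
      have h1 : q < 2 ^ q := Nat.lt_two_pow_self
      have h2 : 2 ^ (pm q h lam + q + 2) = 2 ^ pm q h lam * (2 ^ q * 4) := by
        rw [pow_add, pow_add]; ring
      rw [h2]
      have h3 : 1 ≤ 2 ^ pm q h lam := Nat.one_le_two_pow
      nlinarith
    have hsp1 := sp_of_chase (t := t) (P := 1) (S := S) col ∅ hΘ1 hq3 B hS3
      (fun A' _ _ ⟨c, hc, _⟩ => absurd hc (notMem_empty c))
    have hsp : Sp (junk col ∅) B S (2 ^ a) (2 ^ pe h lam q) := by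
      intro A' hA' hSA
      obtain ⟨X, Y, h1, h2, h3, h4, h5, -⟩ := hsp1 A' hA' hSA
      have hle : 4 * Θ ^ (q * t) ≤ 2 ^ a := by
        rw [hΘt, ha]
        unfold aa
        rw [show 2 + th q h lam * (q * t) + (h + 2 + pm q h lam) * D =
          2 + th q h lam * (q * t) + (h + 2 + pm q h lam) * D from rfl, pow_add, pow_add]
        have : 1 ≤ 2 ^ ((h + 2 + pm q h lam) * D) := Nat.one_le_two_pow
        calc 4 * 2 ^ (th q h lam * (q * t)) = 2 ^ 2 * 2 ^ (th q h lam * (q * t)) * 1 := by norm_num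
          _ ≤ _ := Nat.mul_le_mul_left _ this
      refine ⟨X, Y, h1, h2, h3, h4.trans (Nat.mul_le_mul_right _ hle),
        h5.trans (Nat.mul_le_mul_right _ hle), ?_⟩
      rw [ec_junk_empty, mul_zero]
      exact Nat.zero_le _
    refine no_sp hD1 hD hlam hn hDh q ∅ B S a (by simp) hsp ?_ hS2 (fun j hj => pe_le_pm hj) ?_ ?_
    · intro c hc hco
      exact hcon c B (hp c hc) hco
    · rw [ha]; unfold aa; omega
    · exact Nat.mul_div_le _ _
  | succ u ih =>
    intro U B hU hp hB
    by_contra hcon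
    set Λ := La q h lam D t with hΛ
    set Θ := 2 ^ th q h lam with hΘ
    set a := aa q h lam D t with ha
    have hΘt : Θ ^ (q * t) = 2 ^ (th q h lam * (q * t)) := by rw [hΘ, ← pow_mul]
    set S := B.card / 2 ^ Λ with hS
    set NB := 2 ^ (st q h lam D t * (u + 1)) * (2 * Fintype.card W + 2) with hNB
    have hNB1 : 2 * Fintype.card W + 2 ≤ NB := Nat.le_mul_of_pos_left _ (by positivity)
    have hS1 : 2 ^ (1 + th q h lam * (q * t)) * NB ≤ S := by
      rw [hS, Nat.le_div_iff_mul_le (by positivity)]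
      refine le_trans ?_ hB
      rw [show st q h lam D t * (u + 1 + 1) = st q h lam D t * (u + 1) + st q h lam D t by ring,
        pow_add 2 (st q h lam D t * (u + 1)),
        show 2 ^ st q h lam D t = 2 ^ Λ * 2 ^ (1 + th q h lam * (q * t)) by
        rw [← pow_add, hΛ]; congr 1; unfold st; ring, hNB]
      apply le_of_eq; ring
    have hS2 : 2 * Fintype.card W + 1 ≤ S := by
      refine le_trans ?_ hS1
      exact le_trans (by omega) (Nat.le_mul_of_pos_left _ (by positivity))
    have hS3 : 2 * Θ ^ (q * t) ≤ S := by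
      refine le_trans ?_ hS1
      rw [hΘt, pow_add 2 1, pow_one]
      exact Nat.le_mul_of_pos_right _ (by omega)
    have hΘ1 : 1 ≤ Θ := Nat.one_le_two_pow
    -- the number of pivoted colours
    have hk : (univ \ U).card < q := by
      rw [card_sdiff_of_subset (subset_univ _), card_univ, Fintype.card_fin, hU]
      have : U.card ≤ q := by
        have := card_le_univ U
        rwa [Fintype.card_fin] at this
      omega
    set k := (univ \ U).card with hkdef
    have hq3 : 3 * q * 2 ^ pe h lam k ≤ Θ := by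
      have h0 : 2 ^ pe h lam k ≤ 2 ^ pm q h lam :=
        Nat.pow_le_pow_right (by norm_num) (pe_le_pm hk)
      rw [hΘ]
      unfold th
      have h1 : q < 2 ^ q := Nat.lt_two_pow_self
      have h2 : 2 ^ (pm q h lam + q + 2) = 2 ^ pm q h lam * (2 ^ q * 4) := by
        rw [pow_add, pow_add]; ring
      rw [h2]
      calc 3 * q * 2 ^ pe h lam k ≤ (2 ^ q * 4) * 2 ^ pm q h lam :=
            Nat.mul_le_mul (by omega) h0
        _ = _ := mul_comm _ _
    by_cases hno : ∀ A' ⊆ B, S ≤ A'.card → ¬ ∃ c ∈ U, ∃ B' ⊆ A', A'.card ≤ Θ ^ (q * t) * B'.card ∧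
      Piv col c t B'
    · have hsp := sp_of_chase (t := t) (P := 2 ^ pe h lam k) (S := S) col U hΘ1 hq3 B hS3 hno
      have hle : 4 * Θ ^ (q * t) ≤ 2 ^ a := by
        rw [hΘt, ha]
        unfold aa
        rw [pow_add, pow_add]
        have : 1 ≤ 2 ^ ((h + 2 + pm q h lam) * D) := Nat.one_le_two_pow
        calc 4 * 2 ^ (th q h lam * (q * t)) = 2 ^ 2 * 2 ^ (th q h lam * (q * t)) * 1 := by norm_num
          _ ≤ _ := Nat.mul_le_mul_left _ this
      refine no_sp hD1 hD hlam hn hDh k U B S a rfl (hsp.mono hle) ?_ hS2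
        (fun j hj => pe_le_pm (hj.trans hk)) ?_ ?_
      · intro c hc hco
        exact hcon ⟨c, B, hp c hc, hco⟩
      · rw [ha]; unfold aa; omega
      · refine le_trans (Nat.mul_le_mul_right _ (Nat.pow_le_pow_right (by norm_num) ?_))
          (Nat.mul_div_le B.card (2 ^ Λ))
        rw [hΛ]
        unfold La
        rw [← ha]
        refine Nat.mul_le_mul_right _ (Nat.mul_le_mul (by omega) ?_)
        exact Nat.pow_le_pow_right (by omega) hk.le
    · push Not at hno
      obtain ⟨A', hA', hSA, c, hc, B', hB', hcard, hpc⟩ := hno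
      refine hcon (ih (U.erase c) B' ?_ ?_ ?_)
      · rw [card_erase_of_mem hc, hU]; rfl
      · intro c' hc'
        by_cases h1 : c' = c
        · rw [h1]; exact hpc
        · exact (hp c' fun h2 => hc' (mem_erase.2 ⟨h1, h2⟩)).mono (hB'.trans hA')
      · have h1 : 2 ^ (th q h lam * (q * t)) * NB ≤ 2 ^ (th q h lam * (q * t)) * B'.card := by
          calc 2 ^ (th q h lam * (q * t)) * NB
              ≤ 2 ^ (1 + th q h lam * (q * t)) * NB :=
                Nat.mul_le_mul_right _ (Nat.pow_le_pow_right (by norm_num) (by omega))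
            _ ≤ S := hS1
            _ ≤ A'.card := hSA
            _ ≤ _ := by rw [← hΘt]; exact hcard
        exact Nat.le_of_mul_le_mul_left h1 (by positivity)

/-- The theorem in natural numbers. -/
theorem ramsey {V : Type u} [Fintype V] {W : Type v} [Fintype W] (H : SimpleGraph W) (A : Finset W)
    {D lam h q : ℕ} (hD1 : 1 ≤ D)
    (hD : ∀ v, v ∉ A → (univ.filter fun w => w ∉ A ∧ H.Adj v w).card ≤ D)
    (hlam : ∀ v w, v ∉ A → w ∉ A → H.Adj v w →
      (univ.filter fun u => u ∉ A ∧ H.Adj u v ∧ H.Adj u w).card ≤ lam)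
    (hn : Fintype.card W ≤ 2 ^ h) (hDh : D + 1 ≤ 2 ^ h) (col : Sym2 V → Fin q)
    (hV : 2 ^ (st q h lam D A.card * (q + 1)) * (2 * Fintype.card W + 2) ≤ Fintype.card V) :
    ∃ i : Fin q, ∃ f : W → V, Function.Injective f ∧ ∀ u v, H.Adj u v → col s(f u, f v) = i := by
  have key := main (V := V) (W := {v // v ∈ {v | v ∉ A}}) (G := H.induce {v | v ∉ A}) (D := D)
    (lam := lam) (h := h) (q := q) (t := A.card) hD1 ?_ ?_ ?_ hDh (col := col) q univ univ
    (by simp) (fun c hc => absurd (mem_univ c) hc) ?_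
  · obtain ⟨c, B', hp, hco⟩ := key
    obtain ⟨f, hf1, hf2⟩ := copy_of_piv H A hp hco
    exact ⟨c, f, hf1, hf2⟩
  · intro v
    refine le_trans ?_ (hD v.1 v.2)
    rw [← card_map ⟨Subtype.val, Subtype.val_injective⟩]
    refine card_le_card ?_
    intro x hx
    obtain ⟨w, hw, rfl⟩ := mem_map.1 hx
    rw [mem_filter] at hw ⊢
    exact ⟨mem_univ _, w.2, hw.2⟩
  · intro v w hvw
    refine le_trans ?_ (hlam v.1 w.1 v.2 w.2 hvw)
    rw [← card_map ⟨Subtype.val, Subtype.val_injective⟩]
    refine card_le_card ?_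
    intro x hx
    obtain ⟨u, hu, rfl⟩ := mem_map.1 hx
    rw [mem_filter] at hu ⊢
    exact ⟨mem_univ _, u.2, hu.2.1, hu.2.2⟩
  · exact (Fintype.card_subtype_le _).trans hn
  · refine le_trans ?_ (hV.trans (by rw [card_univ]))
    refine Nat.mul_le_mul_left _ ?_
    have : Fintype.card {v // v ∈ {v | v ∉ A}} ≤ Fintype.card W := Fintype.card_subtype_le _
    omega

end MP01T
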