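import Pool.Agent.Lib_MP_01c500_t.PotA

/-!
# The potential embedding
-/

set_option autoImplicit false

open Finset Classical

namespace MP01T

universe u v

section

variable {V : Type u} {W : Type v} [Fintype W]

/-- number of embedded neighbours -/
noncomputable def tm (G : SimpleGraph W) (E : Finset W) (v : W) : ℕ :=
  (univ.filter fun u => G.Adj u v ∧ u ∈ E).card

theorem tm_insert_adj {G : SimpleGraph W} {E : Finset W} {u v : W} (hu : u ∉ E) (h : G.Adj u v) :
    tm G (insert u E) v = tm G E v + 1 := by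
  unfold tm
  have e : (univ.filter fun x => G.Adj x v ∧ x ∈ insert u E)
      = insert u (univ.filter fun x => G.Adj x v ∧ x ∈ E) := by
    ext x
    simp only [mem_filter, mem_univ, true_and, mem_insert]
    constructor
    · rintro ⟨h1, h2 | h2⟩
      · exact Or.inl h2
      · exact Or.inr ⟨h1, h2⟩
    · rintro (rfl | ⟨h1, h2⟩)
      · exact ⟨h, Or.inl rfl⟩
      · exact ⟨h1, Or.inr h2⟩
  rw [e, card_insert_of_notMem]
  simp [hu]

theorem tm_insert_nadj {G : SimpleGraph W} {E : Finset W} {u v : W} (h : ¬ G.Adj u v) :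
    tm G (insert u E) v = tm G E v := by
  unfold tm
  congr 1
  ext x
  simp only [mem_filter, mem_univ, true_and, mem_insert]
  constructor
  · rintro ⟨h1, rfl | h2⟩
    · exact absurd h1 h
    · exact ⟨h1, h2⟩
  · rintro ⟨h1, h2⟩
    exact ⟨h1, Or.inr h2⟩

theorem tm_lt {G : SimpleGraph W} {D : ℕ} (hD : ∀ v, (univ.filter fun w => G.Adj v w).card ≤ D)
    {E : Finset W} {u v : W} (hu : u ∉ E) (h : G.Adj u v) : tm G E v + 1 ≤ D := by
  rw [← tm_insert_adj hu h]
  refine le_trans (card_le_card ?_) (hD v)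
  intro x hx
  simp only [mem_filter, mem_univ, true_and] at hx ⊢
  exact hx.1.symm

/-- the state of the embedding -/
def Inv (G : SimpleGraph W) {ι : Type} (κ : W → ι) (J R : V → V → Prop) (g K' : ℝ)
    (K D s : ℕ) (Φ : ℝ) (U : ι → Finset V) (E : Finset W) : Prop :=
  ∃ (f : W → V) (L : W → Finset V), (∀ v ∈ E, f v ∈ U (κ v)) ∧
    (∀ v ∈ E, ∀ w ∈ E, f v = f w → v = w) ∧ (∀ v ∈ E, ∀ w ∈ E, G.Adj v w → R (f v) (f w)) ∧
    (∀ v, v ∉ E → L v ⊆ U (κ v)) ∧ (∀ v, v ∉ E → (L v).card = K ^ (D - tm G E v) * s) ∧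
    (∀ v, v ∉ E → ∀ u ∈ E, G.Adj u v → ∀ y ∈ L v, R (f u) y) ∧ Ph G g K' J E L ≤ Φ

theorem step (G : SimpleGraph W) {D : ℕ}
    (hD1 : 1 ≤ D) (hD : ∀ v, (univ.filter fun w => G.Adj v w).card ≤ D)
    {ι : Type} (κ : W → ι) (hκ : ∀ v w, G.Adj v w → κ v ≠ κ w)
    {J R : V → V → Prop} (hJ : ∀ x y, J x y → J y x) (hR : ∀ x y, R x y → R y x)
    {K K₀ s : ℕ} (hK₀ : 1 ≤ K₀) (hK : (2 * D + 1) * K₀ ≤ K)
    (hs : 2 * Fintype.card W < s) (U : ι → Finset V) {Φ : ℝ}
    (hΦ : K₀ * (Φ * (2 * D * (2 * D + 1))) ≤ 1) {E : Finset W} {u : W} (hu : u ∉ E)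
    (hI : Inv G κ J R (1 + 1 / (2 * D)) K K D s Φ U E) :
    Inv G κ J R (1 + 1 / (2 * D)) K K D s Φ U (insert u E) ∨
    ∃ (i j : ι) (X Y : Finset V), i ≠ j ∧ X ⊆ U i ∧ Y ⊆ U j ∧ s ≤ (2 * D + 1) * X.card ∧
      s ≤ (2 * D + 1) * Y.card ∧ K₀ * (ec J X Y + ec R X Y) ≤ 2 * (X.card * Y.card) := by
  obtain ⟨f, L, h1, h2, h3, h4, h5, h6, h7⟩ := hI
  set g : ℝ := 1 + 1 / (2 * D) with hg
  have hDr : (0 : ℝ) < D := by exact_mod_cast hD1
  have hg1 : 1 ≤ g := by
    rw [hg]
    have : (0 : ℝ) ≤ 1 / (2 * D) := by positivity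
    linarith
  have hg0 : 0 ≤ g := zero_le_one.trans hg1
  have hKpos : 0 < K := by
    have : 0 < (2 * D + 1) * K₀ := by positivity
    omega
  have hs0 : 0 < s := by omega
  have hLs : ∀ v, v ∉ E → s ≤ (L v).card := by
    intro v hv
    rw [h5 v hv]
    exact Nat.le_mul_of_pos_left _ (by positivity)
  -- the pruned lists
  set Y : W → Finset V := fun v => (L v).filter fun y =>
    ((L v).card : ℝ) * Fv G g K J E L u v y ≤ g * ∑ z ∈ L v, Fv G g K J E L u v z with hY
  have hYc : ∀ v, (L v).card ≤ (2 * D + 1) * (Y v).card := fun v =>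
    prune (fun y => Fv_nonneg hg0 J E L u v y) hD1
  have hYL : ∀ v, Y v ⊆ L v := fun v => filter_subset _ _
  set B : W → Finset V := fun v => (L u).filter fun x =>
    K₀ * ((Y v).filter fun y => R x y).card < (Y v).card with hB
  have hBL : ∀ v, B v ⊆ L u := fun v => filter_subset _ _
  by_cases hA : ∃ v, G.Adj u v ∧ v ∉ E ∧ (L u).card ≤ 2 * D * (B v).card
  · -- a sparse pair
    obtain ⟨v, huv, hv, hBv⟩ := hA
    right
    refine ⟨κ u, κ v, B v, Y v, hκ u v huv, (hBL v).trans (h4 u hu), (hYL v).trans (h4 v hv), ?_, ?_, ?_⟩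
    · have := hLs u hu
      nlinarith
    · exact (hLs v hv).trans (hYc v)
    · have hR1 : K₀ * ec R (B v) (Y v) ≤ (B v).card * (Y v).card := by
        rw [ec_eq_sum, mul_sum, ← smul_eq_mul, ← sum_const]
        refine sum_le_sum fun x hx => ?_
        exact (mem_filter.1 hx).2.le
      have hJ1 : K₀ * ec J (B v) (Y v) ≤ (B v).card * (Y v).card := by
        have c1 : (0 : ℝ) < (L u).card := by exact_mod_cast hs0.trans_le (hLs u hu)
        have c2 : (0 : ℝ) < (L v).card := by exact_mod_cast hs0.trans_le (hLs v hv)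
        have e1 : (ec J (B v) (Y v) : ℝ) ≤ ec J (L u) (L v) := by
          exact_mod_cast ec_mono (hBL v) (hYL v)
        have e2 : dn J (L u) (L v) ≤ Φ := by
          have e3 : ph G g K J E L u v ≤ Φ := by
            refine le_trans ?_ h7
            unfold Ph
            have e4 : ph G g K J E L u v ≤ ∑ w, ph G g K J E L u w :=
              single_le_sum (f := fun w => ph G g K J E L u w)
                (fun w _ => ph_nonneg G hg0 _ _ _ u w) (mem_univ v)
            have e5 : ∑ w, ph G g K J E L u w ≤ ∑ v, ∑ w, ph G g K J E L v w :=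
              single_le_sum (f := fun v => ∑ w, ph G g K J E L v w)
                (fun v _ => sum_nonneg fun w _ => ph_nonneg G hg0 _ _ _ v w) (mem_univ u)
            exact e4.trans e5
          refine le_trans ?_ e3
          unfold ph
          rw [if_pos ⟨hu, hv, huv⟩]
          have e6 : 1 ≤ wt G g K E u v := by
            unfold wt
            have : (1 : ℝ) ≤ K := by exact_mod_cast hKpos
            have k1 : (1 : ℝ) ≤ g ^ (rm G E u + rm G E v) := one_le_pow₀ hg1
            have k2 : (1 : ℝ) ≤ ((K : ℝ) ^ 2) ^ rmc G E u v := one_le_pow₀ (one_le_pow₀ this)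
            nlinarith
          have := dn_nonneg J (L u) (L v)
          nlinarith
        have e7 : (ec J (L u) (L v) : ℝ) ≤ Φ * ((L u).card * (L v).card) := by
          unfold dn at e2
          rwa [div_le_iff₀ (by positivity)] at e2
        have hΦ0 : 0 ≤ Φ := (dn_nonneg J (L u) (L v)).trans e2
        have e8 : ((L u).card : ℝ) ≤ 2 * D * (B v).card := by exact_mod_cast hBv
        have e9 : ((L v).card : ℝ) ≤ (2 * D + 1) * (Y v).card := by exact_mod_cast hYc v
        have e10 : ((L u).card : ℝ) * (L v).card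
            ≤ (2 * D * (B v).card) * ((2 * D + 1) * (Y v).card) := by gcongr
        have e11 : (K₀ : ℝ) * ec J (B v) (Y v) ≤ (B v).card * (Y v).card := by
          calc (K₀ : ℝ) * ec J (B v) (Y v) ≤ K₀ * (Φ * ((L u).card * (L v).card)) := by
                gcongr; exact e1.trans e7
            _ ≤ K₀ * (Φ * ((2 * D * (B v).card) * ((2 * D + 1) * (Y v).card))) := by gcongr
            _ = (K₀ * (Φ * (2 * D * (2 * D + 1)))) * ((B v).card * (Y v).card) := by ring
            _ ≤ 1 * ((B v).card * (Y v).card) := by gcongr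
            _ = _ := one_mul _
        exact_mod_cast e11
      rw [mul_add]
      omega
  · left
    push Not at hA
    -- a good vertex
    set Nu := univ.filter fun v => G.Adj u v ∧ v ∉ E with hNu
    have hNuD : Nu.card ≤ D := (card_le_card fun v hv => by
      simp only [hNu, mem_filter, mem_univ, true_and] at hv ⊢; exact hv.1).trans (hD u)
    have hBsum : 2 * D * (Nu.biUnion B).card ≤ D * (L u).card := by
      calc 2 * D * (Nu.biUnion B).card ≤ 2 * D * ∑ v ∈ Nu, (B v).card :=
            Nat.mul_le_mul_left _ card_biUnion_le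
        _ = ∑ v ∈ Nu, 2 * D * (B v).card := by rw [mul_sum]
        _ ≤ ∑ v ∈ Nu, (L u).card := by
            refine sum_le_sum fun v hv => ?_
            simp only [hNu, mem_filter, mem_univ, true_and] at hv
            exact (hA v hv.1 hv.2).le
        _ = Nu.card * (L u).card := by rw [sum_const, smul_eq_mul]
        _ ≤ D * (L u).card := Nat.mul_le_mul_right _ hNuD
    have hB2 : 2 * (Nu.biUnion B).card ≤ (L u).card := by
      have : D * (2 * (Nu.biUnion B).card) ≤ D * (L u).card := by
        calc D * (2 * (Nu.biUnion B).card) = 2 * D * (Nu.biUnion B).card := by ring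
          _ ≤ _ := hBsum
      exact Nat.le_of_mul_le_mul_left this hD1
    have hused : (E.image f).card ≤ Fintype.card W := card_image_le.trans (card_le_univ E)
    obtain ⟨x, hxL, hxB⟩ : ∃ x ∈ L u, x ∉ Nu.biUnion B ∪ E.image f := by
      by_contra hcon
      push Not at hcon
      have := (card_le_card hcon).trans (card_union_le _ _)
      have := hLs u hu
      omega
    rw [mem_union, not_or] at hxB
    obtain ⟨hxB, hxE⟩ := hxB
    have hxgood : ∀ v, G.Adj u v → v ∉ E → (Y v).card ≤ K₀ * ((Y v).filter fun y => R x y).card := by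
      intro v huv hv
      by_contra hcon
      push Not at hcon
      exact hxB (mem_biUnion.2 ⟨v, by simp [hNu, huv, hv], mem_filter.2 ⟨hxL, hcon⟩⟩)
    -- the new lists
    have hex : ∀ v, ∃ L' : Finset V, (¬ (G.Adj u v ∧ v ∉ E) → L' = L v) ∧
        (G.Adj u v ∧ v ∉ E → L' ⊆ (Y v).filter (fun y => R x y) ∧
          L'.card = K ^ (D - (tm G E v + 1)) * s) := by
      intro v
      by_cases hv : G.Adj u v ∧ v ∉ E
      · have hlt := tm_lt hD hu hv.1
        have e1 : (L v).card = K * (K ^ (D - (tm G E v + 1)) * s) := by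
          rw [h5 v hv.2]
          have : D - tm G E v = (D - (tm G E v + 1)) + 1 := by omega
          rw [this, pow_succ]
          ring
        have e2 : K ^ (D - (tm G E v + 1)) * s ≤ ((Y v).filter fun y => R x y).card := by
          have e3 := hYc v
          have e4 := hxgood v hv.1 hv.2
          set l := K ^ (D - (tm G E v + 1)) * s
          have e5 : (2 * D + 1) * K₀ * l ≤ (2 * D + 1) * K₀ * ((Y v).filter fun y => R x y).card := by
            calc (2 * D + 1) * K₀ * l ≤ K * l := Nat.mul_le_mul_right _ hK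
              _ = (L v).card := e1.symm
              _ ≤ (2 * D + 1) * (Y v).card := e3
              _ ≤ (2 * D + 1) * (K₀ * ((Y v).filter fun y => R x y).card) :=
                  Nat.mul_le_mul_left _ e4
              _ = _ := by ring
          exact Nat.le_of_mul_le_mul_left e5 (by positivity)
        obtain ⟨L', hL', hc⟩ := exists_subset_card_eq e2
        exact ⟨L', fun h => absurd hv h, fun _ => ⟨hL', hc⟩⟩
      · exact ⟨L v, fun _ => rfl, fun h => absurd h hv⟩
    choose L' hL'1 hL'2 using hex
    have hfu : Function.update f u x u = x := Function.update_self _ _ _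
    have hfn : ∀ v ∈ E, Function.update f u x v = f v := fun v hv =>
      Function.update_of_ne (fun h : v = u => hu (h ▸ hv)) _ _
    refine ⟨Function.update f u x, L', ?_, ?_, ?_, ?_, ?_, ?_, ?_⟩
    · intro v hv
      rcases mem_insert.1 hv with h | hv'
      · rw [h, hfu]; exact h4 _ hu hxL
      · rw [hfn v hv']; exact h1 v hv'
    · intro v hv w hw hvw
      rcases mem_insert.1 hv with h | hv' <;> rcases mem_insert.1 hw with h' | hw'
      · rw [h, h']
      · rw [h, hfu, hfn w hw'] at hvw
        exact absurd (mem_image.2 ⟨w, hw', hvw.symm⟩) hxE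
      · rw [h', hfu, hfn v hv'] at hvw
        exact absurd (mem_image.2 ⟨v, hv', hvw⟩) hxE
      · rw [hfn v hv', hfn w hw'] at hvw
        exact h2 v hv' w hw' hvw
    · intro v hv w hw hvw
      rcases mem_insert.1 hv with h | hv' <;> rcases mem_insert.1 hw with h' | hw'
      · rw [h, h'] at hvw
        exact absurd hvw (G.loopless.irrefl _)
      · rw [h] at hvw
        rw [h, hfu, hfn w hw']
        exact hR _ _ (h6 _ hu w hw' hvw.symm x hxL)
      · rw [h'] at hvw
        rw [h', hfu, hfn v hv']
        exact h6 _ hu v hv' hvw x hxL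
      · rw [hfn v hv', hfn w hw']
        exact h3 v hv' w hw' hvw
    · intro v hv
      rw [mem_insert, not_or] at hv
      by_cases hc : G.Adj u v ∧ v ∉ E
      · exact ((hL'2 v hc).1.trans (filter_subset _ _)).trans ((hYL v).trans (h4 v hv.2))
      · rw [hL'1 v hc]; exact h4 v hv.2
    · intro v hv
      rw [mem_insert, not_or] at hv
      by_cases hc : G.Adj u v ∧ v ∉ E
      · rw [(hL'2 v hc).2, tm_insert_adj hu hc.1]
      · rw [hL'1 v hc, tm_insert_nadj fun h => hc ⟨h, hv.2⟩]
        exact h5 v hv.2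
    · intro v hv w hw hwv y hy
      rw [mem_insert, not_or] at hv
      by_cases hc : G.Adj u v ∧ v ∉ E
      · have hy' := mem_filter.1 ((hL'2 v hc).1 hy)
        rcases mem_insert.1 hw with h | hw'
        · rw [h, hfu]; exact hy'.2
        · rw [hfn w hw']
          exact h6 v hv.2 w hw' hwv y (hYL v hy'.1)
      · rw [hL'1 v hc] at hy
        rcases mem_insert.1 hw with h | hw'
        · rw [h] at hwv
          exact absurd ⟨hwv, hv.2⟩ hc
        · rw [hfn w hw']
          exact h6 v hv.2 w hw' hwv y hy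
    · refine le_trans (Ph_le hg1 (by exact_mod_cast hKpos) hJ hu L L' ?_ ?_ ?_ ?_ ?_) h7
      · intro w hw
        exact hL'1 w fun h => hw h.1
      · intro v huv hv
        rw [← card_pos, (hL'2 v ⟨huv, hv⟩).2]
        positivity
      · intro v huv hv
        exact ((hL'2 v ⟨huv, hv⟩).1.trans (filter_subset _ _)).trans (hYL v)
      · intro v huv hv
        rw [(hL'2 v ⟨huv, hv⟩).2, h5 v hv]
        have hlt := tm_lt hD hu huv
        have : D - tm G E v = (D - (tm G E v + 1)) + 1 := by omega
        rw [this, pow_succ]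
        push_cast
        ring
      · intro v huv hv y hy
        have hy' := mem_filter.1 ((hL'2 v ⟨huv, hv⟩).1 hy)
        exact (mem_filter.1 hy'.1).2

/-- **Embedding or a sparse pair.** -/
theorem embed_or_sparse (G : SimpleGraph W) {D lam : ℕ}
    (hD1 : 1 ≤ D) (hD : ∀ v, (univ.filter fun w => G.Adj v w).card ≤ D)
    (hlam : ∀ v w, G.Adj v w → (univ.filter fun u => G.Adj u v ∧ G.Adj u w).card ≤ lam)
    {ι : Type} (κ : W → ι) (hκ : ∀ v w, G.Adj v w → κ v ≠ κ w)
    {J R : V → V → Prop} (hJ : ∀ x y, J x y → J y x) (hR : ∀ x y, R x y → R y x)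
    {K K₀ P s : ℕ} (hK₀ : 1 ≤ K₀) (hK : (2 * D + 1) * K₀ ≤ K)
    (hP : 6 * Fintype.card W * D ^ 2 * (2 * D + 1) * K₀ * K ^ (2 * lam) ≤ P)
    (hs : 2 * Fintype.card W < s) (U : ι → Finset V) (hU : ∀ i, (U i).card = K ^ D * s)
    (hsp : ∀ i j, i ≠ j → P * ec J (U i) (U j) ≤ (U i).card * (U j).card) :
    (∃ f : W → V, Function.Injective f ∧ (∀ v, f v ∈ U (κ v)) ∧ ∀ v w, G.Adj v w → R (f v) (f w)) ∨
    ∃ (i j : ι) (X Y : Finset V), i ≠ j ∧ X ⊆ U i ∧ Y ⊆ U j ∧ s ≤ (2 * D + 1) * X.card ∧
      s ≤ (2 * D + 1) * Y.card ∧ K₀ * (ec J X Y + ec R X Y) ≤ 2 * (X.card * Y.card) := by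
  by_contra hcon
  push Not at hcon
  obtain ⟨hno, hno2⟩ := hcon
  have hKpos : 0 < K := by
    have : 0 < (2 * D + 1) * K₀ := by positivity
    omega
  have hs0 : 0 < s := by omega
  set g : ℝ := 1 + 1 / (2 * D) with hg
  have hDr : (0 : ℝ) < D := by exact_mod_cast hD1
  have hg1 : 1 ≤ g := by
    rw [hg]
    have : (0 : ℝ) ≤ 1 / (2 * D) := by positivity
    linarith
  have hg0 : 0 ≤ g := zero_le_one.trans hg1
  have hKr : (1 : ℝ) ≤ K := by exact_mod_cast hKpos
  rcases isEmpty_or_nonempty W with hW | hW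
  · obtain ⟨v, w, hvw, -⟩ := hno (fun w => (hW.false w).elim) (fun w => (hW.false w).elim)
      (fun w => (hW.false w).elim)
    exact hW.false v
  have hn0 : 0 < Fintype.card W := Fintype.card_pos
  have hP0 : 0 < P := lt_of_lt_of_le (by positivity) hP
  have hPr : (0 : ℝ) < P := by exact_mod_cast hP0
  set Φ : ℝ := Fintype.card W * D * (3 * (K : ℝ) ^ (2 * lam) / P) with hΦd
  have hΦ : K₀ * (Φ * (2 * D * (2 * D + 1))) ≤ 1 := by
    have e : K₀ * (Φ * (2 * D * (2 * D + 1)))
        = ((6 * Fintype.card W * D ^ 2 * (2 * D + 1) * K₀ * K ^ (2 * lam) : ℕ) : ℝ) / P := by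
      rw [hΦd]; push_cast; ring
    rw [e, div_le_one hPr]
    exact_mod_cast hP
  have hg2 : g ^ (2 * D) ≤ 3 := by
    have e1 : g ≤ Real.exp (1 / (2 * D)) := by
      rw [hg, add_comm]
      exact Real.add_one_le_exp _
    calc g ^ (2 * D) ≤ (Real.exp (1 / (2 * D))) ^ (2 * D) := by gcongr
      _ = Real.exp 1 := by
          rw [← Real.exp_nat_mul]
          congr 1
          push_cast
          field_simp
      _ ≤ 3 := by linarith [Real.exp_one_lt_d9]
  have key : ∀ E : Finset W, Inv G κ J R g K K D s Φ U E := by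
    intro E
    induction E using Finset.induction_on with
    | empty =>
      have hV : Nonempty V := by
        obtain ⟨v⟩ := hW
        have : (U (κ v)).Nonempty := by
          rw [← card_pos, hU]; positivity
        exact ⟨this.choose⟩
      refine ⟨fun _ => Classical.choice hV, fun v => U (κ v), by simp, by simp, by simp, by simp, ?_,
        by simp, ?_⟩
      · intro v _
        rw [hU]
        simp [tm]
      · have k1 : ∀ v w, ph G g K J ∅ (fun v => U (κ v)) v w
            ≤ if G.Adj v w then 3 * (K : ℝ) ^ (2 * lam) / P else 0 := by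
          intro v w
          unfold ph
          by_cases hvw : G.Adj v w
          · rw [if_pos ⟨notMem_empty _, notMem_empty _, hvw⟩, if_pos hvw]
            have e1 : wt G g K ∅ v w ≤ 3 * (K : ℝ) ^ (2 * lam) := by
              unfold wt
              have r1 : ∀ v, rm G ∅ v ≤ D := fun v => by
                refine (card_le_card fun x hx => ?_).trans (hD v)
                simp only [mem_filter, mem_univ, true_and] at hx ⊢
                exact hx.1.symm
              have r2 : rmc G ∅ v w ≤ lam := by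
                refine (card_le_card fun x hx => ?_).trans (hlam v w hvw)
                simp only [mem_filter, mem_univ, true_and] at hx ⊢
                exact hx.1
              have r3 : g ^ (rm G ∅ v + rm G ∅ w) ≤ 3 := by
                refine le_trans (pow_le_pow_right₀ hg1 ?_) hg2
                have := r1 v
                have := r1 w
                omega
              have r4 : ((K : ℝ) ^ 2) ^ rmc G ∅ v w ≤ (K : ℝ) ^ (2 * lam) := by
                rw [pow_mul]
                exact pow_le_pow_right₀ (one_le_pow₀ hKr) r2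
              gcongr
            have e2 : dn J (U (κ v)) (U (κ w)) ≤ 1 / P := by
              unfold dn
              have c : ∀ i, (0 : ℝ) < (U i).card := fun i => by
                rw [hU]; exact_mod_cast (by positivity : 0 < K ^ D * s)
              have := hsp _ _ (hκ v w hvw)
              rw [div_le_div_iff₀ (mul_pos (c _) (c _)) hPr, one_mul, mul_comm]
              exact_mod_cast this
            calc wt G g K ∅ v w * dn J (U (κ v)) (U (κ w))
                ≤ (3 * (K : ℝ) ^ (2 * lam)) * (1 / P) := by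
                  have := dn_nonneg J (U (κ v)) (U (κ w))
                  gcongr
              _ = _ := by ring
          · rw [if_neg fun h => hvw h.2.2, if_neg hvw]
        have k2 : ∀ v : W, ∑ w, ph G g K J ∅ (fun v => U (κ v)) v w
            ≤ D * (3 * (K : ℝ) ^ (2 * lam) / P) := by
          intro v
          refine (sum_le_sum fun w _ => k1 v w).trans ?_
          rw [← sum_filter, sum_const, nsmul_eq_mul]
          have := hD v
          gcongr
        refine (sum_le_sum fun v _ => k2 v).trans ?_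
        rw [sum_const, nsmul_eq_mul, card_univ, ← mul_assoc]
    | insert u E hu ih =>
      rcases step G hD1 hD κ hκ hJ hR hK₀ hK hs U hΦ hu ih with h | ⟨i, j, X, Y, h1, h2, h3, h4, h5, h6⟩
      · exact h
      · exact absurd h6 (not_le.2 (hno2 i j X Y h1 h2 h3 h4 h5))
  obtain ⟨f, L, h1, h2, h3, -⟩ := key univ
  obtain ⟨v, w, hvw, hn⟩ := hno f (fun v w h => h2 v (mem_univ _) w (mem_univ _) h)
    (fun v => h1 v (mem_univ _))
  exact hn (h3 v (mem_univ _) w (mem_univ _) hvw)

end

end MP01T
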