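import Pool.Agent.Lib_MP_01c500_t.Defs

/-!
# The potential
-/

set_option autoImplicit false

open Finset Classical

namespace MP01T

universe u v

section pot

variable {V : Type u} {W : Type v} [Fintype W] (G : SimpleGraph W)

/-- neighbours of `v` which are not yet embedded -/
noncomputable def rm (E : Finset W) (v : W) : ℕ := (univ.filter fun u => G.Adj u v ∧ u ∉ E).card

/-- common neighbours of `v`, `w` which are not yet embedded -/
noncomputable def rmc (E : Finset W) (v w : W) : ℕ :=
  (univ.filter fun u => (G.Adj u v ∧ G.Adj u w) ∧ u ∉ E).card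

/-- the weight of a pair -/
noncomputable def wt (g K : ℝ) (E : Finset W) (v w : W) : ℝ :=
  g ^ (rm G E v + rm G E w) * (K ^ 2) ^ rmc G E v w

/-- the density of `J` between `X` and `Y` -/
noncomputable def dn (J : V → V → Prop) (X Y : Finset V) : ℝ :=
  (ec J X Y : ℝ) / ((X.card : ℝ) * Y.card)

/-- one term of the potential -/
noncomputable def ph (g K : ℝ) (J : V → V → Prop) (E : Finset W) (L : W → Finset V) (v w : W) : ℝ :=
  if v ∉ E ∧ w ∉ E ∧ G.Adj v w then wt G g K E v w * dn J (L v) (L w) else 0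

/-- the potential -/
noncomputable def Ph (g K : ℝ) (J : V → V → Prop) (E : Finset W) (L : W → Finset V) : ℝ :=
  ∑ v, ∑ w, ph G g K J E L v w

theorem dn_nonneg (J : V → V → Prop) (X Y : Finset V) : 0 ≤ dn J X Y := by
  unfold dn; positivity

theorem dn_comm {J : V → V → Prop} (hJ : ∀ x y, J x y → J y x) (X Y : Finset V) :
    dn J X Y = dn J Y X := by
  unfold dn
  rw [ec_comm hJ, mul_comm (X.card : ℝ)]

theorem wt_nonneg {g K : ℝ} (hg : 0 ≤ g) (E : Finset W) (v w : W) : 0 ≤ wt G g K E v w := by
  unfold wt; positivity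

theorem rmc_comm (E : Finset W) (v w : W) : rmc G E v w = rmc G E w v := by
  unfold rmc
  congr 1
  ext u
  simp only [mem_filter, mem_univ, true_and]
  tauto

theorem wt_comm (g K : ℝ) (E : Finset W) (v w : W) : wt G g K E v w = wt G g K E w v := by
  unfold wt
  rw [rmc_comm, add_comm]

theorem ph_nonneg {g K : ℝ} (hg : 0 ≤ g) (J : V → V → Prop) (E : Finset W) (L : W → Finset V)
    (v w : W) : 0 ≤ ph G g K J E L v w := by
  unfold ph
  split_ifs
  · exact mul_nonneg (wt_nonneg G hg E v w) (dn_nonneg _ _ _)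
  · exact le_rfl

theorem ph_comm {g K : ℝ} {J : V → V → Prop} (hJ : ∀ x y, J x y → J y x) (E : Finset W)
    (L : W → Finset V) (v w : W) : ph G g K J E L v w = ph G g K J E L w v := by
  unfold ph
  rw [wt_comm, dn_comm hJ]
  by_cases h : v ∉ E ∧ w ∉ E ∧ G.Adj v w
  · rw [if_pos h, if_pos ⟨h.2.1, h.1, h.2.2.symm⟩]
  · rw [if_neg h, if_neg fun h' => h ⟨h'.2.1, h'.1, h'.2.2.symm⟩]

variable {G}

theorem rm_insert_adj {E : Finset W} {u v : W} (hu : u ∉ E) (h : G.Adj u v) :
    rm G E v = rm G (insert u E) v + 1 := by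
  unfold rm
  have e : (univ.filter fun x => G.Adj x v ∧ x ∉ E)
      = insert u (univ.filter fun x => G.Adj x v ∧ x ∉ insert u E) := by
    ext x
    simp only [mem_filter, mem_univ, true_and, mem_insert]
    constructor
    · rintro ⟨h1, h2⟩
      by_cases hx : x = u
      · exact Or.inl hx
      · exact Or.inr ⟨h1, fun h => h.elim hx h2⟩
    · rintro (rfl | ⟨h1, h2⟩)
      · exact ⟨h, hu⟩
      · exact ⟨h1, fun h3 => h2 (Or.inr h3)⟩
  rw [e, card_insert_of_notMem]
  simp

theorem rm_insert_nadj {E : Finset W} {u v : W} (h : ¬ G.Adj u v) :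
    rm G E v = rm G (insert u E) v := by
  unfold rm
  congr 1
  ext x
  simp only [mem_filter, mem_univ, true_and, mem_insert]
  constructor
  · rintro ⟨h1, h2⟩
    refine ⟨h1, ?_⟩
    rintro (rfl | h3)
    · exact h h1
    · exact h2 h3
  · rintro ⟨h1, h2⟩
    exact ⟨h1, fun h3 => h2 (Or.inr h3)⟩

theorem rmc_insert_adj {E : Finset W} {u v w : W} (hu : u ∉ E) (h : G.Adj u v) (h' : G.Adj u w) :
    rmc G E v w = rmc G (insert u E) v w + 1 := by
  unfold rmc
  have e : (univ.filter fun x => (G.Adj x v ∧ G.Adj x w) ∧ x ∉ E)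
      = insert u (univ.filter fun x => (G.Adj x v ∧ G.Adj x w) ∧ x ∉ insert u E) := by
    ext x
    simp only [mem_filter, mem_univ, true_and, mem_insert]
    constructor
    · rintro ⟨h1, h2⟩
      by_cases hx : x = u
      · exact Or.inl hx
      · exact Or.inr ⟨h1, fun h => h.elim hx h2⟩
    · rintro (rfl | ⟨h1, h2⟩)
      · exact ⟨⟨h, h'⟩, hu⟩
      · exact ⟨h1, fun h3 => h2 (Or.inr h3)⟩
  rw [e, card_insert_of_notMem]
  simp

theorem rmc_insert_nadj {E : Finset W} {u v w : W} (h : ¬ (G.Adj u v ∧ G.Adj u w)) :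
    rmc G E v w = rmc G (insert u E) v w := by
  unfold rmc
  congr 1
  ext x
  simp only [mem_filter, mem_univ, true_and, mem_insert]
  constructor
  · rintro ⟨h1, h2⟩
    refine ⟨h1, ?_⟩
    rintro (rfl | h3)
    · exact h h1
    · exact h2 h3
  · rintro ⟨h1, h2⟩
    exact ⟨h1, fun h3 => h2 (Or.inr h3)⟩

/-- the weighted density of the pairs at `y`, for the list of `v`, after the embedding of `u` -/
noncomputable def Fv (G : SimpleGraph W) (g K : ℝ) (J : V → V → Prop) (E : Finset W)
    (L : W → Finset V) (u v : W) (y : V) : ℝ :=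
  ∑ w, if ¬ G.Adj u w ∧ w ∉ insert u E ∧ G.Adj v w then
    wt G g K (insert u E) v w * (((L w).filter fun z => J y z).card : ℝ) / (L w).card else 0

theorem Fv_nonneg {g K : ℝ} (hg : 0 ≤ g) (J : V → V → Prop) (E : Finset W) (L : W → Finset V)
    (u v : W) (y : V) : 0 ≤ Fv G g K J E L u v y := by
  unfold Fv
  refine sum_nonneg fun w _ => ?_
  split_ifs
  · have := wt_nonneg G (K := K) hg (insert u E) v w
    positivity
  · exact le_rfl

theorem sum_Fv (g K : ℝ) (J : V → V → Prop) (E : Finset W) (L : W → Finset V)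
    (u v : W) (X : Finset V) : ∑ y ∈ X, Fv G g K J E L u v y
      = ∑ w, if ¬ G.Adj u w ∧ w ∉ insert u E ∧ G.Adj v w then
        wt G g K (insert u E) v w * (ec J X (L w) : ℝ) / (L w).card else 0 := by
  unfold Fv
  rw [sum_comm]
  refine sum_congr rfl fun w _ => ?_
  split_ifs
  · rw [ec_eq_sum, ← sum_div, ← mul_sum]
    push_cast
    rfl
  · simp

/-- the update inequality for the pairs with exactly one updated list -/
theorem single_le {g K : ℝ} (hg : 0 ≤ g) (J : V → V → Prop) {E : Finset W} {u v : W} (hu : u ∉ E)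
    (huv : G.Adj u v) (L L' : W → Finset V) (hL : ∀ w, ¬ G.Adj u w → L' w = L w)
    (hv : v ∉ E) (hne : (L' v).Nonempty) (hsub : L' v ⊆ L v)
    (hF : ∀ y ∈ L' v, ((L v).card : ℝ) * Fv G g K J E L u v y
      ≤ g * ∑ z ∈ L v, Fv G g K J E L u v z) :
    (∑ w, if ¬ G.Adj u w then ph G g K J (insert u E) L' v w else 0)
      ≤ ∑ w, if ¬ G.Adj u w then ph G g K J E L v w else 0 := by
  have hvu : v ≠ u := huv.ne'
  have hv' : v ∉ insert u E := by simp [hvu, hv]
  have c1 : (0 : ℝ) < (L' v).card := by exact_mod_cast hne.card_pos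
  have c2 : (0 : ℝ) < (L v).card := by exact_mod_cast (hne.mono hsub).card_pos
  -- left-hand side
  have e1 : (∑ w, if ¬ G.Adj u w then ph G g K J (insert u E) L' v w else 0)
      = (∑ y ∈ L' v, Fv G g K J E L u v y) / (L' v).card := by
    rw [sum_Fv, sum_div]
    refine sum_congr rfl fun w _ => ?_
    unfold ph
    by_cases h1 : G.Adj u w
    · simp [h1]
    · by_cases h2 : w ∉ insert u E ∧ G.Adj v w
      · rw [if_pos h1, if_pos ⟨hv', h2.1, h2.2⟩, if_pos ⟨h1, h2.1, h2.2⟩, hL w h1]
        unfold dn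
        rw [div_div, mul_div_assoc, mul_comm ((L' v).card : ℝ)]
      · rw [if_pos h1, if_neg fun h => h2 h.2, if_neg fun h => h2 h.2, zero_div]
  have e2 : g * (∑ y ∈ L v, Fv G g K J E L u v y) / (L v).card
      ≤ ∑ w, if ¬ G.Adj u w then ph G g K J E L v w else 0 := by
    rw [sum_Fv, mul_sum, sum_div]
    refine sum_le_sum fun w _ => ?_
    by_cases h1 : G.Adj u w
    · simp [h1]
    · by_cases h2 : w ∉ insert u E ∧ G.Adj v w
      · have h3 : w ∉ E := fun h => h2.1 (mem_insert_of_mem h)
        rw [if_pos h1, if_pos ⟨h1, h2.1, h2.2⟩]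
        unfold ph
        rw [if_pos ⟨hv, h3, h2.2⟩]
        have h4 : wt G g K E v w = g * wt G g K (insert u E) v w := by
          unfold wt
          rw [rm_insert_adj hu huv, rm_insert_nadj h1, rmc_insert_nadj fun h => h1 h.2]
          ring
        rw [h4]
        unfold dn
        rw [mul_comm ((L v).card : ℝ)]
        apply le_of_eq
        field_simp
      · rw [if_neg fun h => h2 h.2, if_pos h1]
        simp only [mul_zero, zero_div]
        exact ph_nonneg G hg J E L v w
  rw [e1]
  refine le_trans ?_ e2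
  rw [div_le_div_iff₀ c1 c2]
  have h5 : (∑ y ∈ L' v, Fv G g K J E L u v y) * (L v).card
      = ∑ y ∈ L' v, (L v).card * Fv G g K J E L u v y := by
    rw [sum_mul]
    exact sum_congr rfl fun y _ => mul_comm _ _
  rw [h5]
  refine (sum_le_sum hF).trans ?_
  rw [sum_const, nsmul_eq_mul, mul_comm]

/-- **The potential does not increase.** -/
theorem Ph_le {g K : ℝ} (hg : 1 ≤ g) (hK : 0 < K) {J : V → V → Prop} (hJ : ∀ x y, J x y → J y x)
    {E : Finset W} {u : W} (hu : u ∉ E) (L L' : W → Finset V)
    (hL : ∀ w, ¬ G.Adj u w → L' w = L w)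
    (hne : ∀ v, G.Adj u v → v ∉ E → (L' v).Nonempty)
    (hsub : ∀ v, G.Adj u v → v ∉ E → L' v ⊆ L v)
    (hcard : ∀ v, G.Adj u v → v ∉ E → ((L v).card : ℝ) = K * (L' v).card)
    (hF : ∀ v, G.Adj u v → v ∉ E → ∀ y ∈ L' v, ((L v).card : ℝ) * Fv G g K J E L u v y
      ≤ g * ∑ z ∈ L v, Fv G g K J E L u v z) :
    Ph G g K J (insert u E) L' ≤ Ph G g K J E L := by
  have hg0 : (0 : ℝ) ≤ g := zero_le_one.trans hg
  set a : W → W → ℝ := ph G g K J (insert u E) L' with ha
  set b : W → W → ℝ := ph G g K J E L with hb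
  have a0 : ∀ v w, 0 ≤ a v w := fun v w => ph_nonneg G hg0 _ _ _ v w
  have b0 : ∀ v w, 0 ≤ b v w := fun v w => ph_nonneg G hg0 _ _ _ v w
  -- one updated list
  have k1 : ∀ v, G.Adj u v → (∑ w, if ¬ G.Adj u w then a v w else 0)
      ≤ ∑ w, if ¬ G.Adj u w then b v w else 0 := by
    intro v huv
    by_cases hv : v ∈ E
    · refine (le_of_eq (sum_eq_zero fun w _ => ?_)).trans (sum_nonneg fun w _ => ?_)
      · split_ifs
        · rfl
        · rw [ha]
          unfold ph
          rw [if_neg fun h => h.1 (mem_insert_of_mem hv)]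
      · split_ifs
        · exact le_rfl
        · exact b0 v w
    · exact single_le hg0 J hu huv L L' hL hv (hne v huv hv) (hsub v huv hv) (hF v huv hv)
  -- two updated lists
  have k2 : ∀ v w, G.Adj u v → G.Adj u w → a v w ≤ b v w := by
    intro v w huv huw
    rw [ha]
    unfold ph
    split_ifs with h
    · obtain ⟨h1, h2, h3⟩ := h
      have hv : v ∉ E := fun h => h1 (mem_insert_of_mem h)
      have hw : w ∉ E := fun h => h2 (mem_insert_of_mem h)
      rw [hb]
      unfold ph
      rw [if_pos ⟨hv, hw, h3⟩]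
      have h4 : wt G g K E v w = g ^ 2 * (K ^ 2 * wt G g K (insert u E) v w) := by
        unfold wt
        rw [rm_insert_adj hu huv, rm_insert_adj hu huw, rmc_insert_adj hu huv huw]
        ring
      have hw0 := wt_nonneg G (K := K) hg0 (insert u E) v w
      have c1 : (0 : ℝ) < (L' v).card := by exact_mod_cast (hne v huv hv).card_pos
      have c2 : (0 : ℝ) < (L' w).card := by exact_mod_cast (hne w huw hw).card_pos
      have h5 : dn J (L' v) (L' w) ≤ K ^ 2 * dn J (L v) (L w) := by
        unfold dn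
        rw [hcard v huv hv, hcard w huw hw]
        have h6 : (ec J (L' v) (L' w) : ℝ) ≤ ec J (L v) (L w) := by
          exact_mod_cast ec_mono (hsub v huv hv) (hsub w huw hw)
        have h7 : K ^ 2 * ((ec J (L v) (L w) : ℝ) / (K * (L' v).card * (K * (L' w).card)))
            = (ec J (L v) (L w) : ℝ) / ((L' v).card * (L' w).card) := by
          field_simp
        rw [h7]
        gcongr
      rw [h4]
      calc wt G g K (insert u E) v w * dn J (L' v) (L' w)
          ≤ wt G g K (insert u E) v w * (K ^ 2 * dn J (L v) (L w)) := by gcongr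
        _ = 1 * (K ^ 2 * wt G g K (insert u E) v w) * dn J (L v) (L w) := by ring
        _ ≤ g ^ 2 * (K ^ 2 * wt G g K (insert u E) v w) * dn J (L v) (L w) := by
            have h8 : (1 : ℝ) ≤ g ^ 2 := one_le_pow₀ hg
            have h9 := dn_nonneg J (L v) (L w)
            gcongr
    · exact b0 v w
  -- no updated list
  have k3 : ∀ v w, ¬ G.Adj u v → ¬ G.Adj u w → a v w ≤ b v w := by
    intro v w huv huw
    rw [ha]
    unfold ph
    split_ifs with h
    · obtain ⟨h1, h2, h3⟩ := h
      have hv : v ∉ E := fun h => h1 (mem_insert_of_mem h)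
      have hw : w ∉ E := fun h => h2 (mem_insert_of_mem h)
      rw [hb]
      unfold ph
      rw [if_pos ⟨hv, hw, h3⟩, hL v huv, hL w huw]
      have h4 : wt G g K E v w = wt G g K (insert u E) v w := by
        unfold wt
        rw [rm_insert_nadj huv, rm_insert_nadj huw, rmc_insert_nadj fun h => huv h.1]
      rw [h4]
    · exact b0 v w
  -- symmetry
  have as : ∀ v w, a v w = a w v := fun v w => ph_comm G hJ _ _ v w
  have bs : ∀ v w, b v w = b w v := fun v w => ph_comm G hJ _ _ v w
  have split : ∀ c : W → W → ℝ, ∑ v, ∑ w, c v w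
      = (∑ v, if G.Adj u v then ∑ w, (if G.Adj u w then c v w else 0) else 0)
      + (∑ v, if G.Adj u v then ∑ w, (if ¬ G.Adj u w then c v w else 0) else 0)
      + (∑ w, if G.Adj u w then ∑ v, (if ¬ G.Adj u v then c v w else 0) else 0)
      + (∑ v, if ¬ G.Adj u v then ∑ w, (if ¬ G.Adj u w then c v w else 0) else 0) := by
    intro c
    have e3 : (∑ w, if G.Adj u w then ∑ v, (if ¬ G.Adj u v then c v w else 0) else 0)
        = ∑ v, if ¬ G.Adj u v then ∑ w, (if G.Adj u w then c v w else 0) else 0 := by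
      have : ∀ w, (if G.Adj u w then ∑ v, (if ¬ G.Adj u v then c v w else 0) else 0)
          = ∑ v, if G.Adj u w then (if ¬ G.Adj u v then c v w else 0) else 0 := by
        intro w
        split_ifs
        · rfl
        · simp
      simp_rw [this]
      rw [sum_comm]
      refine sum_congr rfl fun v _ => ?_
      split_ifs with h
      · simp
      · refine sum_congr rfl fun w _ => ?_
        rfl
    rw [e3, ← sum_add_distrib, ← sum_add_distrib, ← sum_add_distrib]
    refine sum_congr rfl fun v _ => ?_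
    by_cases h : G.Adj u v
    · simp only [h, if_true, not_true, if_false, add_zero]
      rw [← sum_add_distrib]
      refine sum_congr rfl fun w _ => ?_
      by_cases h' : G.Adj u w <;> simp [h']
    · simp only [h, if_false, not_false_eq_true, if_true, zero_add]
      rw [← sum_add_distrib]
      refine sum_congr rfl fun w _ => ?_
      by_cases h' : G.Adj u w <;> simp [h']
  show ∑ v, ∑ w, a v w ≤ ∑ v, ∑ w, b v w
  rw [split a, split b]
  refine add_le_add (add_le_add (add_le_add ?_ ?_) ?_) ?_
  · refine sum_le_sum fun v _ => ?_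
    split_ifs with h
    · refine sum_le_sum fun w _ => ?_
      split_ifs with h'
      · exact k2 v w h h'
      · exact le_rfl
    · exact le_rfl
  · refine sum_le_sum fun v _ => ?_
    split_ifs with h
    · exact k1 v h
    · exact le_rfl
  · refine sum_le_sum fun w _ => ?_
    split_ifs with h
    · have := k1 w h
      calc (∑ v, if ¬ G.Adj u v then a v w else 0)
          = ∑ v, if ¬ G.Adj u v then a w v else 0 := by
            refine sum_congr rfl fun v _ => ?_
            rw [as v w]
        _ ≤ ∑ v, if ¬ G.Adj u v then b w v else 0 := this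
        _ = ∑ v, if ¬ G.Adj u v then b v w else 0 := by
            refine sum_congr rfl fun v _ => ?_
            rw [bs v w]
    · exact le_rfl
  · refine sum_le_sum fun v _ => ?_
    split_ifs with h
    · exact le_rfl
    · refine sum_le_sum fun w _ => ?_
      split_ifs with h'
      · exact le_rfl
      · exact k3 v w h h'

/-- pruning: few elements are far above the average -/
theorem prune {L : Finset V} {F : V → ℝ} (hF : ∀ y, 0 ≤ F y) {D : ℕ} (hD : 1 ≤ D) :
    L.card ≤ (2 * D + 1) * (L.filter fun y =>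
      (L.card : ℝ) * F y ≤ (1 + 1 / (2 * D)) * ∑ z ∈ L, F z).card := by
  set g : ℝ := 1 + 1 / (2 * D) with hgd
  set T := ∑ z ∈ L, F z with hT
  set Y := L.filter fun y => (L.card : ℝ) * F y ≤ g * T with hY
  set Z := L.filter fun y => ¬ (L.card : ℝ) * F y ≤ g * T with hZ
  have hYZ : Y.card + Z.card = L.card := card_filter_add_card_filter_not _
  have hD' : (0 : ℝ) < D := by exact_mod_cast hD
  have hg : 0 < g := by positivity
  rcases Z.eq_empty_or_nonempty with h0 | hne
  · rw [h0, card_empty, add_zero] at hYZ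
    rw [← hYZ]
    exact Nat.le_mul_of_pos_left _ (by omega)
  · have h1 : ∀ z ∈ Z, g * T < (L.card : ℝ) * F z := fun z hz => not_le.1 (mem_filter.1 hz).2
    have h2 : (Z.card : ℝ) * (g * T) < ∑ z ∈ Z, (L.card : ℝ) * F z := by
      rw [← nsmul_eq_mul, ← sum_const]
      exact sum_lt_sum_of_nonempty hne h1
    have h3 : ∑ z ∈ Z, (L.card : ℝ) * F z ≤ L.card * T := by
      rw [← mul_sum]
      refine mul_le_mul_of_nonneg_left ?_ (by positivity)
      exact sum_le_sum_of_subset_of_nonneg (filter_subset _ _) fun y _ _ => hF y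
    have h4 : (Z.card : ℝ) * g * T < L.card * T := by
      rw [mul_assoc]; exact h2.trans_le h3
    have hT0 : 0 ≤ T := sum_nonneg fun y _ => hF y
    have h5 : (Z.card : ℝ) * g < L.card := lt_of_mul_lt_mul_right h4 hT0
    have h6 : (Z.card : ℝ) * (2 * D + 1) < 2 * D * L.card := by
      have e : (Z.card : ℝ) * (2 * D + 1) = (Z.card : ℝ) * g * (2 * D) := by
        rw [hgd]; field_simp
      rw [e, mul_comm (2 * (D : ℝ))]
      exact mul_lt_mul_of_pos_right h5 (by positivity)
    have h7 : Z.card * (2 * D + 1) < 2 * D * L.card := by exact_mod_cast h6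
    have h8 : (2 * D + 1) * Y.card + Z.card * (2 * D + 1) = (2 * D + 1) * L.card := by
      rw [← hYZ]; ring
    nlinarith

end pot

end MP01T
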