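import Pool.Agent.Lib_MP_01c500_t.Defs

/-!
# Many pairwise sparse sets
-/

set_option autoImplicit false

open Finset Classical

namespace MP01T

universe u

theorem markovT {V : Type u} (X : Finset V) (g : V → ℕ) (M T : ℕ) (hT : ∑ x ∈ X, g x ≤ T) :
    (X.filter fun x => M < g x).card * M ≤ T := by
  have h1 : ∑ x ∈ X.filter (fun x => M < g x), M ≤ ∑ x ∈ X.filter (fun x => M < g x), g x :=
    sum_le_sum fun x hx => (mem_filter.1 hx).2.le
  rw [sum_const, smul_eq_mul] at h1
  have h2 : ∑ x ∈ X.filter (fun x => M < g x), g x ≤ ∑ x ∈ X, g x :=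
    sum_le_sum_of_subset (filter_subset _ _)
  exact h1.trans (h2.trans hT)

/-- PROOF. Induction on `h`. `h = 0`: any subset of `A'` of size `b`. Step: take `X`, `Y` in `A'` from
`Sp` (`A'.card ≥ (2σ)^(h+1) b ≥ b ≥ S`). Let `X'` be the set of `x ∈ X` with `P * #(J x ∩ Y) ≤ 2 * #Y`; at
least half of `X` (count `ec J X Y`), so `#X' ≥ (2σ)^h b`. Induction in `X'`: sets `B i` with
`P * ec J (B i) Y ≤ 2 #(B i) #Y`. Let `Y'` be the set of `y ∈ Y` with, for all `i`,
`P * #(J y ∩ B i) ≤ 2^(h+2) * #(B i)`: for one `i` less than `#Y / 2^(h+1)` elements of `Y` fail (if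
`b > 0`), so at least half of `Y` remains. Induction in `Y'`. `B f := if f 0 then B₁ (Fin.tail f) else
B₂ (Fin.tail f)`. (`σ = 0` is impossible unless `A'` is empty; assume `1 ≤ b`.) -/
theorem tree {V : Type u} {J : V → V → Prop} (hJ : ∀ x y, J x y → J y x) {A : Finset V}
    {S σ P : ℕ} (h : Sp J A S σ P) {b : ℕ} (hb : 1 ≤ b) (hS : S ≤ b) (k : ℕ) :
    ∀ A' ⊆ A, (2 * σ) ^ k * b ≤ A'.card → b ≤ A'.card → ∃ B : (Fin k → Bool) → Finset V,
      (∀ i, B i ⊆ A') ∧ (∀ i, (B i).card = b) ∧ (∀ i j, i ≠ j → Disjoint (B i) (B j)) ∧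
      ∀ i j, i ≠ j → P * ec J (B i) (B j) ≤ 2 ^ (k + 1) * ((B i).card * (B j).card) := by
  induction k with
  | zero =>
    intro A' _ _ hbA
    obtain ⟨B, hBA, hBc⟩ := exists_subset_card_eq hbA
    exact ⟨fun _ => B, fun _ => hBA, fun _ => hBc, fun i j hij => (hij (Subsingleton.elim i j)).elim,
      fun i j hij => (hij (Subsingleton.elim i j)).elim⟩
  | succ k ih =>
    intro A' hA' hcard hbA
    obtain ⟨X, Y, hXA, hYA, hXY, hX, hY, hP⟩ := h A' hA' (hS.trans hbA)
    have hσ : 0 < σ := by
      rcases Nat.eq_zero_or_pos σ with h0 | h0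
      · rw [h0, Nat.zero_mul] at hX
        omega
      · exact h0
    have hpow : b ≤ (2 * σ) ^ k * b := Nat.le_mul_of_pos_left _ (Nat.pow_pos (by omega))
    have hXc : 2 * ((2 * σ) ^ k * b) ≤ X.card := by
      have h1 : σ * (2 * ((2 * σ) ^ k * b)) ≤ σ * X.card := by
        calc σ * (2 * ((2 * σ) ^ k * b)) = (2 * σ) ^ (k + 1) * b := by ring
          _ ≤ A'.card := hcard
          _ ≤ σ * X.card := hX
      exact Nat.le_of_mul_le_mul_left h1 hσ
    have hYc : 2 * ((2 * σ) ^ k * b) ≤ Y.card := by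
      have h1 : σ * (2 * ((2 * σ) ^ k * b)) ≤ σ * Y.card := by
        calc σ * (2 * ((2 * σ) ^ k * b)) = (2 * σ) ^ (k + 1) * b := by ring
          _ ≤ A'.card := hcard
          _ ≤ σ * Y.card := hY
      exact Nat.le_of_mul_le_mul_left h1 hσ
    have hYpos : 0 < Y.card := by omega
    -- the good elements of X
    set X' : Finset V := X.filter fun x => P * (Y.filter fun y => J x y).card ≤ 2 * Y.card with hX'
    have hX'c : (2 * σ) ^ k * b ≤ X'.card := by
      have h1 := markovT X (fun x => P * (Y.filter fun y => J x y).card) (2 * Y.card)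
        (X.card * Y.card) (by rw [← mul_sum, ← ec_eq_sum]; exact hP)
      have h2 : (X.filter fun x => 2 * Y.card < P * (Y.filter fun y => J x y).card).card * 2 ≤
          X.card := by
        refine Nat.le_of_mul_le_mul_right ?_ hYpos
        calc _ = (X.filter fun x => 2 * Y.card < P * (Y.filter fun y => J x y).card).card *
              (2 * Y.card) := by ring
          _ ≤ _ := h1
      have h3 : X'.card + (X.filter fun x => 2 * Y.card <
          P * (Y.filter fun y => J x y).card).card = X.card := by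
        rw [hX', ← card_filter_add_card_filter_not
          (s := X) (fun x => P * (Y.filter fun y => J x y).card ≤ 2 * Y.card)]
        simp only [not_le]
      omega
    have hX'A : X' ⊆ A' := (filter_subset _ _).trans hXA
    obtain ⟨B₁, hB₁s, hB₁c, hB₁d, hB₁e⟩ := ih X' (hX'A.trans hA') hX'c (hpow.trans hX'c)
    -- density of the B₁ i to Y
    have hB₁Y : ∀ i, P * ec J (B₁ i) Y ≤ 2 * b * Y.card := by
      intro i
      rw [ec_eq_sum, mul_sum]
      calc ∑ x ∈ B₁ i, P * (Y.filter fun y => J x y).card ≤ ∑ x ∈ B₁ i, 2 * Y.card :=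
            sum_le_sum fun x hx => (mem_filter.1 (hB₁s i hx)).2
        _ = 2 * b * Y.card := by rw [sum_const, hB₁c, smul_eq_mul]; ring
    set Y' : Finset V := Y.filter fun y =>
      ∀ i, P * ((B₁ i).filter fun x => J y x).card ≤ 2 ^ (k + 2) * b with hY'
    have hY'c : (2 * σ) ^ k * b ≤ Y'.card := by
      have h1 : ∀ i, (Y.filter fun y => 2 ^ (k + 2) * b <
          P * ((B₁ i).filter fun x => J y x).card).card * 2 ^ (k + 1) ≤ Y.card := by
        intro i
        have h1 := markovT Y (fun y => P * ((B₁ i).filter fun x => J y x).card) (2 ^ (k + 2) * b)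
          (2 * b * Y.card) (by
            rw [← mul_sum, ← ec_eq_sum, ec_comm hJ]; exact hB₁Y i)
        refine Nat.le_of_mul_le_mul_right ?_ (show 0 < 2 * b by omega)
        calc _ = (Y.filter fun y => 2 ^ (k + 2) * b <
              P * ((B₁ i).filter fun x => J y x).card).card * (2 ^ (k + 2) * b) := by ring
          _ ≤ _ := h1
          _ = _ := by ring
      have h2 : (Y.filter fun y => ¬ ∀ i, P * ((B₁ i).filter fun x => J y x).card ≤
          2 ^ (k + 2) * b) ⊆ (univ : Finset (Fin k → Bool)).biUnion fun i =>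
          Y.filter fun y => 2 ^ (k + 2) * b < P * ((B₁ i).filter fun x => J y x).card := by
        intro y hy
        rw [mem_filter] at hy
        obtain ⟨hy1, hy2⟩ := hy
        push Not at hy2
        obtain ⟨i, hi⟩ := hy2
        exact mem_biUnion.2 ⟨i, mem_univ _, mem_filter.2 ⟨hy1, hi⟩⟩
      have h3 := (card_le_card h2).trans card_biUnion_le
      have h4 : (∑ i : Fin k → Bool, (Y.filter fun y => 2 ^ (k + 2) * b <
          P * ((B₁ i).filter fun x => J y x).card).card) * 2 ^ (k + 1) ≤ 2 ^ k * Y.card := by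
        rw [sum_mul]
        calc _ ≤ ∑ i : Fin k → Bool, Y.card := sum_le_sum fun i _ => h1 i
          _ = 2 ^ k * Y.card := by
            rw [sum_const, card_univ, Fintype.card_fun, Fintype.card_bool, Fintype.card_fin,
              smul_eq_mul]
      have h5 : 2 * (∑ i : Fin k → Bool, (Y.filter fun y => 2 ^ (k + 2) * b <
          P * ((B₁ i).filter fun x => J y x).card).card) ≤ Y.card := by
        refine Nat.le_of_mul_le_mul_left ?_ (show 0 < 2 ^ k from Nat.pow_pos (by norm_num))
        calc _ = (∑ i : Fin k → Bool, (Y.filter fun y => 2 ^ (k + 2) * b <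
              P * ((B₁ i).filter fun x => J y x).card).card) * 2 ^ (k + 1) := by ring
          _ ≤ _ := h4
      have h6 := card_filter_add_card_filter_not (s := Y)
        (fun y => ∀ i, P * ((B₁ i).filter fun x => J y x).card ≤ 2 ^ (k + 2) * b)
      rw [← hY'] at h6
      omega
    have hY'A : Y' ⊆ A' := (filter_subset _ _).trans hYA
    obtain ⟨B₂, hB₂s, hB₂c, hB₂d, hB₂e⟩ := ih Y' (hY'A.trans hA') hY'c (hpow.trans hY'c)
    have hd12 : ∀ i j, Disjoint (B₁ i) (B₂ j) := fun i j =>
      disjoint_of_subset_left ((hB₁s i).trans (filter_subset _ _))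
        (disjoint_of_subset_right ((hB₂s j).trans (filter_subset _ _)) hXY)
    have he21 : ∀ i j, P * ec J (B₂ j) (B₁ i) ≤ 2 ^ (k + 2) * (b * b) := by
      intro i j
      rw [ec_eq_sum, mul_sum]
      calc ∑ y ∈ B₂ j, P * ((B₁ i).filter fun x => J y x).card ≤
            ∑ y ∈ B₂ j, 2 ^ (k + 2) * b :=
            sum_le_sum fun y hy => (mem_filter.1 (hB₂s j hy)).2 i
        _ = 2 ^ (k + 2) * (b * b) := by rw [sum_const, hB₂c, smul_eq_mul]; ring
    have he12 : ∀ i j, P * ec J (B₁ i) (B₂ j) ≤ 2 ^ (k + 2) * (b * b) := by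
      intro i j
      rw [ec_comm hJ]
      exact he21 i j
    have htail : ∀ f g : Fin (k + 1) → Bool, f 0 = g 0 → f ≠ g → Fin.tail f ≠ Fin.tail g := by
      intro f g h0 hne ht
      apply hne
      rw [← Fin.cons_self_tail f, ← Fin.cons_self_tail g, h0, ht]
    have hpow2 : 2 ^ (k + 1) * (b * b) ≤ 2 ^ (k + 2) * (b * b) :=
      Nat.mul_le_mul_right _ (Nat.pow_le_pow_right (by norm_num) (by omega))
    refine ⟨fun f => if f 0 = true then B₁ (Fin.tail f) else B₂ (Fin.tail f), ?_, ?_, ?_, ?_⟩
    · intro f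
      dsimp only
      split_ifs
      · exact (hB₁s _).trans hX'A
      · exact (hB₂s _).trans hY'A
    · intro f
      dsimp only
      split_ifs
      · exact hB₁c _
      · exact hB₂c _
    · intro f g hfg
      dsimp only
      split_ifs with hf hg hg
      · exact hB₁d _ _ (htail f g (hf.trans hg.symm) hfg)
      · exact hd12 _ _
      · exact (hd12 _ _).symm
      · refine hB₂d _ _ (htail f g ?_ hfg)
        rw [Bool.not_eq_true] at hf hg
        exact hf.trans hg.symm
    · intro f g hfg
      dsimp only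
      split_ifs with hf hg hg
      · have := hB₁e _ _ (htail f g (hf.trans hg.symm) hfg)
        rw [hB₁c, hB₁c] at this ⊢
        exact this.trans hpow2
      · rw [hB₁c, hB₂c]
        exact he12 _ _
      · rw [hB₁c, hB₂c]
        exact he21 _ _
      · have := hB₂e _ _ (htail f g (by
          rw [Bool.not_eq_true] at hf hg
          exact hf.trans hg.symm) hfg)
        rw [hB₂c, hB₂c] at this ⊢
        exact this.trans hpow2

end MP01T
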