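import Pool.Agent.Lib_MP_01c500_t.Pot
import Pool.Agent.Lib_MP_01c500_t.Tree
import Pool.Agent.Lib_MP_01c500_t.Dense
import Pool.Agent.Lib_MP_01c500_t.Chase

/-!
# Induction on the number of colours
-/

set_option autoImplicit false

open Finset Classical

namespace MP01T

universe u v

section

variable {V : Type u} {W : Type v} [Fintype W] {G : SimpleGraph W} {D lam h q : ℕ}

theorem Sp.mono {J : V → V → Prop} {A : Finset V} {S σ σ' P : ℕ} (hs : Sp J A S σ P)
    (hσ : σ ≤ σ') : Sp J A S σ' P := by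
  intro A' hA' hS
  obtain ⟨X, Y, h1, h2, h3, h4, h5, h6⟩ := hs A' hA' hS
  exact ⟨X, Y, h1, h2, h3, h4.trans (Nat.mul_le_mul_right _ hσ),
    h5.trans (Nat.mul_le_mul_right _ hσ), h6⟩

/-- proper colouring by binary words -/
theorem exists_code (hD : ∀ v, (univ.filter fun w => G.Adj v w).card ≤ D) (hDh : D + 1 ≤ 2 ^ h) :
    ∃ κ : W → (Fin h → Bool), ∀ v w, G.Adj v w → κ v ≠ κ w := by
  obtain ⟨κ, hκ⟩ := exists_proper G hD
  have hc : Fintype.card (Fin (D + 1)) ≤ Fintype.card (Fin h → Bool) := by simpa using hDh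
  obtain ⟨e⟩ := Function.Embedding.nonempty_of_card_le hc
  exact ⟨fun v => e (κ v), fun v w hvw heq => hκ v w hvw (e.injective heq)⟩

/-- one more junk colour -/
theorem stage (hD1 : 1 ≤ D) (hD : ∀ v, (univ.filter fun w => G.Adj v w).card ≤ D)
    (hlam : ∀ v w, G.Adj v w → (univ.filter fun u => G.Adj u v ∧ G.Adj u w).card ≤ lam)
    (hn : Fintype.card W ≤ 2 ^ h) (hDh : D + 1 ≤ 2 ^ h) {col : Sym2 V → Fin q}
    {U : Finset (Fin q)} {c : Fin q} {B : Finset V} {S a p : ℕ}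
    (hsp : Sp (junk col U) B S (2 ^ a) (2 ^ (4 * (lam + 1) * p))) (hp : 3 * h + 4 ≤ p)
    (ha : (h + 2 + p) * D + 2 ≤ a) (hS : 2 * Fintype.card W + 1 ≤ S)
    (hno : ¬ Copy (cl col c) G B) :
    Sp (junk col (insert c U)) B (2 ^ ((2 * h + 2) * a) * S) (2 ^ ((2 * h + 2) * a)) (2 ^ p) := by
  intro A' hA' hA'c
  have ha2 : 2 ≤ a := le_trans (Nat.le_add_left _ _) ha
  set z := (a + 1) * h + (h + 2 + p) * D with hz
  set s := A'.card / 2 ^ z with hs
  have hz1 : z ≤ (2 * h + 2) * a := by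
    rw [hz]; nlinarith
  have hz2 : z + (h + 2) ≤ (2 * h + 2) * a := by
    rw [hz]; nlinarith
  have hsS : S ≤ s := by
    rw [hs, Nat.le_div_iff_mul_le (by positivity), mul_comm]
    exact (Nat.mul_le_mul_right _ (Nat.pow_le_pow_right (by norm_num) hz1)).trans hA'c
  have hs1 : 2 ^ z * s ≤ A'.card := Nat.mul_div_le _ _
  have hs2 : A'.card < 2 ^ z * (s + 1) := by
    rw [hs]
    have := Nat.lt_mul_div_succ A'.card (show 0 < 2 ^ z by positivity)
    simpa [mul_add] using this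
  have hs0 : 0 < s := by omega
  set K := 2 ^ (h + 2 + p) with hK
  have e1 : (2 * 2 ^ a) ^ h * (K ^ D * s) = 2 ^ z * s := by
    rw [hK, hz, pow_add 2 ((a + 1) * h), pow_mul 2 (h + 2 + p), pow_mul 2 (a + 1), pow_succ 2 a,
      mul_comm 2 (2 ^ a), mul_assoc]
  have hKD : 0 < K ^ D := by positivity
  have hb1 : 1 ≤ K ^ D * s := Nat.mul_pos hKD hs0
  have hbS : S ≤ K ^ D * s := hsS.trans (Nat.le_mul_of_pos_left _ hKD)
  have hbA : K ^ D * s ≤ A'.card := by
    refine le_trans ?_ hs1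
    rw [← e1]
    exact Nat.le_mul_of_pos_left _ (by positivity)
  obtain ⟨Bl, b1, b2, b3, b4⟩ := tree (junk_symm col U) hsp hb1 hbS h A' hA'
    (by rw [e1]; exact hs1) hbA
  obtain ⟨κ, hκ⟩ := exists_code hD hDh
  have hle : h + 1 ≤ 4 * (lam + 1) * p := by nlinarith
  have hDh' : D ≤ 2 ^ h := by omega
  -- the parameters
  have hP : 6 * Fintype.card W * D ^ 2 * (2 * D + 1) * 2 ^ (p + 1) * K ^ (2 * lam)
      ≤ 2 ^ (4 * (lam + 1) * p - (h + 1)) := by
    have k1 : 6 * Fintype.card W * D ^ 2 * (2 * D + 1) * 2 ^ (p + 1) * K ^ (2 * lam)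
        ≤ 2 ^ 3 * 2 ^ h * (2 ^ h) ^ 2 * 2 ^ (h + 1) * 2 ^ (p + 1) * (2 ^ (h + 2 + p)) ^ (2 * lam) := by
      have : 2 * D + 1 ≤ 2 ^ (h + 1) := by rw [pow_succ]; omega
      gcongr
      norm_num
    refine k1.trans ?_
    rw [← pow_mul, ← pow_mul, ← pow_add, ← pow_add, ← pow_add, ← pow_add, ← pow_add]
    refine Nat.pow_le_pow_right (by norm_num) ?_
    have k2 : 5 * h + 6 + p + 2 * lam * (h + 2 + p) ≤ 4 * (lam + 1) * p := by nlinarith
    have k3 : 3 + h + h * 2 + (h + 1) + (p + 1) + (h + 2 + p) * (2 * lam)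
        = 4 * h + 5 + p + 2 * lam * (h + 2 + p) := by ring
    omega
  have hKK : (2 * D + 1) * 2 ^ (p + 1) ≤ K := by
    have k1 : 2 * D + 1 ≤ 2 ^ (h + 1) := by rw [pow_succ]; omega
    calc (2 * D + 1) * 2 ^ (p + 1) ≤ 2 ^ (h + 1) * 2 ^ (p + 1) := Nat.mul_le_mul_right _ k1
      _ = K := by rw [hK, ← pow_add]; congr 1; ring
  have hspU : ∀ i j, i ≠ j → 2 ^ (4 * (lam + 1) * p - (h + 1)) * ec (junk col U) (Bl i) (Bl j)
      ≤ (Bl i).card * (Bl j).card := by
    intro i j hij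
    have k1 := b4 i j hij
    have k2 : 2 ^ (4 * (lam + 1) * p) = 2 ^ (h + 1) * 2 ^ (4 * (lam + 1) * p - (h + 1)) := by
      rw [← pow_add]; congr 1; omega
    rw [k2, mul_assoc] at k1
    exact Nat.le_of_mul_le_mul_left k1 (by positivity)
  rcases embed_or_sparse G hD1 hD hlam κ hκ (junk_symm col U) (cl_symm col c)
    (Nat.one_le_two_pow) hKK hP (show 2 * Fintype.card W < s by omega) Bl b2 hspU with
    ⟨f, f1, f2, f3⟩ | ⟨i, j, X, Y, hij, hX, hY, hXs, hYs, hXY⟩
  · exact absurd ⟨f, f1, fun v => hA' (b1 _ (f2 v)), f3⟩ hno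
  · have hsz : ∀ Z : Finset V, s ≤ (2 * D + 1) * Z.card → A'.card ≤ 2 ^ ((2 * h + 2) * a) * Z.card := by
      intro Z hZ
      have k1 : 2 * D + 1 ≤ 2 ^ (h + 1) := by rw [pow_succ]; omega
      calc A'.card ≤ 2 ^ z * (s + 1) := hs2.le
        _ ≤ 2 ^ z * (2 * s) := Nat.mul_le_mul_left _ (by omega)
        _ ≤ 2 ^ z * (2 * ((2 * D + 1) * Z.card)) := by gcongr
        _ ≤ 2 ^ z * (2 * (2 ^ (h + 1) * Z.card)) := by gcongr
        _ = 2 ^ (z + (h + 2)) * Z.card := by
            rw [pow_add 2 z, pow_succ 2 (h + 1)]; ring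
        _ ≤ _ := Nat.mul_le_mul_right _ (Nat.pow_le_pow_right (by norm_num) hz2)
    refine ⟨X, Y, hX.trans (b1 i), hY.trans (b1 j), (b3 i j hij).mono hX hY, hsz X hXs, hsz Y hYs, ?_⟩
    have k1 : 2 * (2 ^ p * ec (junk col (insert c U)) X Y) ≤ 2 * (X.card * Y.card) := by
      calc 2 * (2 ^ p * ec (junk col (insert c U)) X Y)
          = 2 ^ (p + 1) * ec (junk col (insert c U)) X Y := by rw [pow_succ]; ring
        _ ≤ 2 ^ (p + 1) * (ec (junk col U) X Y + ec (cl col c) X Y) :=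
            Nat.mul_le_mul_left _ (ec_junk_insert col U c X Y)
        _ ≤ _ := hXY
    omega

/-- the last colour -/
theorem dense_stage (hD1 : 1 ≤ D) (hD : ∀ v, (univ.filter fun w => G.Adj v w).card ≤ D)
    (hDh : D + 1 ≤ 2 ^ h) {col : Sym2 V → Fin q}
    {U : Finset (Fin q)} {c : Fin q} (hc : ∀ c', c' ∉ U → c' = c) {B : Finset V} {S a : ℕ}
    (hsp : Sp (junk col U) B S (2 ^ a) (2 ^ (3 * h + 4)))
    (ha : 1 ≤ a) (hS : 2 * Fintype.card W + 1 ≤ S)
    (hno : ¬ Copy (cl col c) G B) (hB : 2 ^ ((2 * h + 2) * a) * S ≤ B.card) : False := by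
  have hDh' : D ≤ 2 ^ h := by omega
  have e1 : (2 * 2 ^ a) ^ h * (2 * S) ≤ B.card := by
    refine le_trans ?_ hB
    have : (2 * 2 ^ a) ^ h * (2 * S) = 2 ^ ((a + 1) * h + 1) * S := by
      rw [pow_succ 2 ((a + 1) * h), pow_mul 2 (a + 1), pow_succ 2 a, mul_comm 2 (2 ^ a)]; ring
    rw [this]
    refine Nat.mul_le_mul_right _ (Nat.pow_le_pow_right (by norm_num) ?_)
    nlinarith
  have e2 : 2 * S ≤ B.card := le_trans (Nat.le_mul_of_pos_left _ (by positivity)) e1
  obtain ⟨Bl, b1, b2, b3, b4⟩ := tree (junk_symm col U) hsp (show 1 ≤ 2 * S by omega)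
    (show S ≤ 2 * S by omega) h B Subset.rfl e1 e2
  obtain ⟨κ, hκ⟩ := exists_code hD hDh
  have hspU : ∀ i j, i ≠ j → 2 ^ (2 * h + 3) * ec (junk col U) (Bl i) (Bl j)
      ≤ (Bl i).card * (Bl j).card := by
    intro i j hij
    have k1 := b4 i j hij
    have k2 : 2 ^ (3 * h + 4) = 2 ^ (h + 1) * 2 ^ (2 * h + 3) := by
      rw [← pow_add]; congr 1; ring
    rw [k2, mul_assoc] at k1
    exact Nat.le_of_mul_le_mul_left k1 (by positivity)
  obtain ⟨f, f1, f2, f3⟩ := dense_embed G hD1 hD κ hκ (junk_symm col U)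
    (P := 2 ^ (2 * h + 3)) (b := 2 * S) (by
      rw [Fintype.card_fun, Fintype.card_fin, Fintype.card_bool]
      calc 8 * D * 2 ^ h ≤ 8 * 2 ^ h * 2 ^ h := by gcongr
        _ = 2 ^ (2 * h + 3) := by ring) (by omega) Bl b2 b3 hspU
  refine hno ⟨f, f1, fun v => b1 _ (f2 v), fun v w hvw => ?_⟩
  exact hc _ (f3 v w hvw)

/-- the exponents -/
def pe (h lam : ℕ) : ℕ → ℕ
  | 0 => 1
  | 1 => 3 * h + 4
  | (k + 2) => 4 * (lam + 1) * pe h lam (k + 1)

theorem le_pe (h lam : ℕ) : ∀ k, 3 * h + 4 ≤ pe h lam (k + 1)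
  | 0 => le_rfl
  | (k + 1) => by
    have := le_pe h lam k
    show 3 * h + 4 ≤ 4 * (lam + 1) * pe h lam (k + 1)
    nlinarith

theorem no_sp (hD1 : 1 ≤ D) (hD : ∀ v, (univ.filter fun w => G.Adj v w).card ≤ D)
    (hlam : ∀ v w, G.Adj v w → (univ.filter fun u => G.Adj u v ∧ G.Adj u w).card ≤ lam)
    (hn : Fintype.card W ≤ 2 ^ h) (hDh : D + 1 ≤ 2 ^ h) {col : Sym2 V → Fin q} {pm : ℕ} :
    ∀ (k : ℕ) (U : Finset (Fin q)) (B : Finset V) (S a : ℕ), (univ \ U).card = k →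
      Sp (junk col U) B S (2 ^ a) (2 ^ pe h lam k) → (∀ c, c ∉ U → ¬ Copy (cl col c) G B) →
      2 * Fintype.card W + 1 ≤ S → (∀ j, j < k → pe h lam j ≤ pm) → (h + 2 + pm) * D + 2 ≤ a →
      2 ^ ((k + 1) * (2 * h + 2) ^ k * a) * S ≤ B.card → False := by
  intro k
  induction k with
  | zero =>
    intro U B S a hU hsp _ hS _ _ hB
    have hU' : ∀ c : Fin q, c ∈ U := by
      intro c
      by_contra hc
      have : c ∈ univ \ U := by simp [hc]
      rw [card_eq_zero] at hU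
      rw [hU] at this
      exact notMem_empty _ this
    have hSB : S ≤ B.card := le_trans (Nat.le_mul_of_pos_left _ (by positivity)) hB
    obtain ⟨X, Y, -, -, -, h4, h5, h6⟩ := hsp B Subset.rfl hSB
    have e : ec (junk col U) X Y = X.card * Y.card := by
      have h7 : ((X ×ˢ Y).filter fun p => junk col U p.1 p.2) = X ×ˢ Y :=
        filter_true_of_mem fun p _ => (hU' (col s(p.1, p.2)) : junk col U p.1 p.2)
      unfold ec
      rw [h7, card_product]
    rw [e] at h6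
    have hX : 0 < X.card := by
      rcases Nat.eq_zero_or_pos X.card with h0 | h0
      · rw [h0, mul_zero] at h4; omega
      · exact h0
    have hY : 0 < Y.card := by
      rcases Nat.eq_zero_or_pos Y.card with h0 | h0
      · rw [h0, mul_zero] at h5; omega
      · exact h0
    have : 0 < X.card * Y.card := Nat.mul_pos hX hY
    have e2 : (2 : ℕ) ^ pe h lam 0 = 2 := rfl
    rw [e2] at h6
    omega
  | succ k ih =>
    intro U B S a hU hsp hno hS hpm ha hB
    have hcne : (univ \ U).Nonempty := by rw [← card_pos, hU]; omega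
    obtain ⟨c, hc⟩ := hcne
    have hcU : c ∉ U := (mem_sdiff.1 hc).2
    cases k with
    | zero =>
      obtain ⟨c', hc'⟩ := card_eq_one.1 hU
      have hu : ∀ c'', c'' ∉ U → c'' = c := by
        intro c'' hc''
        have h1 : c'' ∈ univ \ U := by simp [hc'']
        rw [hc'] at h1 hc
        rw [mem_singleton.1 h1, mem_singleton.1 hc]
      refine dense_stage hD1 hD hDh hu hsp (le_trans (by omega) ha) hS (hno c hcU) ?_
      refine le_trans (Nat.mul_le_mul_right _ (Nat.pow_le_pow_right (by norm_num) ?_)) hB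
      rw [zero_add, pow_one]
      nlinarith
    | succ k =>
      have hpk : pe h lam (k + 1) ≤ pm := hpm _ (by omega)
      have ha' : (h + 2 + pe h lam (k + 1)) * D + 2 ≤ a := by
        refine le_trans ?_ ha
        gcongr
      have hsp' := stage hD1 hD hlam hn hDh (c := c) (p := pe h lam (k + 1)) hsp (le_pe h lam k) ha'
        hS (hno c hcU)
      refine ih (insert c U) B _ _ ?_ hsp' ?_ ?_ ?_ ?_ ?_
      · rw [sdiff_insert, card_erase_of_mem hc, hU]
        rfl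
      · intro c' hc'
        exact hno c' fun h => hc' (mem_insert_of_mem h)
      · exact hS.trans (Nat.le_mul_of_pos_left _ (by positivity))
      · intro j hj
        exact hpm j (by omega)
      · refine ha.trans ?_
        nlinarith
      · refine le_trans ?_ hB
        rw [← mul_assoc, ← pow_add]
        refine Nat.mul_le_mul_right _ (Nat.pow_le_pow_right (by norm_num) ?_)
        have k1 : (2 * h + 2) ^ (k + 1 + 1) = (2 * h + 2) ^ (k + 1) * (2 * h + 2) := pow_succ _ _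
        have k2 : 1 ≤ (2 * h + 2) ^ (k + 1) := Nat.one_le_pow _ _ (by omega)
        have k3 : (2 * h + 2) * a ≤ (2 * h + 2) ^ (k + 1) * ((2 * h + 2) * a) :=
          Nat.le_mul_of_pos_left _ (by omega)
        calc (k + 1 + 1) * (2 * h + 2) ^ (k + 1) * ((2 * h + 2) * a) + (2 * h + 2) * a
            ≤ (k + 1 + 1) * (2 * h + 2) ^ (k + 1) * ((2 * h + 2) * a)
              + (2 * h + 2) ^ (k + 1) * ((2 * h + 2) * a) := Nat.add_le_add_left k3 _
          _ = (k + 1 + 1 + 1) * (2 * h + 2) ^ (k + 1 + 1) * a := by rw [k1]; ring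

end

end MP01T
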